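import Mathlib

/-!
# Approximation of symmetric polynomials
-/

set_option autoImplicit false

namespace Pool.Agent.Helper28.SY

open MvPolynomial Finset

theorem pow_cmp {A : Type*} [CommRing A] (I : Ideal A) {a b : A} {w : ℕ}
    (ha : a ∈ I ^ w) (hb : b ∈ I ^ w) (hab : a - b ∈ I ^ (w + 1)) (k : ℕ) :
    a ^ k ∈ I ^ (k * w) ∧ b ^ k ∈ I ^ (k * w) ∧ a ^ k - b ^ k ∈ I ^ (k * w + 1) := by
  induction k with
  | zero => simp
  | succ k ih =>
    obtain ⟨h1, h2, h3⟩ := ih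
    have e : (k + 1) * w = k * w + w := by ring
    refine ⟨?_, ?_, ?_⟩
    · rw [pow_succ, e, pow_add]; exact Ideal.mul_mem_mul h1 ha
    · rw [pow_succ, e, pow_add]; exact Ideal.mul_mem_mul h2 hb
    · have e2 : a ^ (k + 1) - b ^ (k + 1) = a ^ k * (a - b) + (a ^ k - b ^ k) * b := by ring
      rw [e2, e]
      refine Ideal.add_mem _ ?_ ?_
      · rw [add_assoc, pow_add]; exact Ideal.mul_mem_mul h1 hab
      · have e3 : k * w + w + 1 = (k * w + 1) + w := by ring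
        rw [e3, pow_add]; exact Ideal.mul_mem_mul h3 hb

theorem prod_cmp {A : Type*} [CommRing A] (I : Ideal A) {ι : Type*} (s : Finset ι) (a b : ι → A)
    (w : ι → ℕ) (h : ∀ i ∈ s, a i ∈ I ^ w i ∧ b i ∈ I ^ w i ∧ a i - b i ∈ I ^ (w i + 1)) :
    (∏ i ∈ s, a i ∈ I ^ (∑ i ∈ s, w i)) ∧ (∏ i ∈ s, b i ∈ I ^ (∑ i ∈ s, w i)) ∧
      (∏ i ∈ s, a i - ∏ i ∈ s, b i ∈ I ^ (∑ i ∈ s, w i + 1)) := by
  classical
  induction s using Finset.induction_on with
  | empty => simp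
  | insert i s hi ih =>
    obtain ⟨h1, h2, h3⟩ := ih fun j hj => h j (Finset.mem_insert_of_mem hj)
    obtain ⟨g1, g2, g3⟩ := h i (Finset.mem_insert_self i s)
    rw [Finset.prod_insert hi, Finset.prod_insert hi, Finset.sum_insert hi]
    refine ⟨?_, ?_, ?_⟩
    · rw [pow_add]; exact Ideal.mul_mem_mul g1 h1
    · rw [pow_add]; exact Ideal.mul_mem_mul g2 h2
    · have e2 : a i * ∏ j ∈ s, a j - b i * ∏ j ∈ s, b j =
          a i * (∏ j ∈ s, a j - ∏ j ∈ s, b j) + (a i - b i) * ∏ j ∈ s, b j := by ring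
      rw [e2]
      refine Ideal.add_mem _ ?_ ?_
      · rw [add_assoc, pow_add]; exact Ideal.mul_mem_mul g1 h3
      · have e3 : w i + ∑ j ∈ s, w j + 1 = (w i + 1) + ∑ j ∈ s, w j := by ring
        rw [e3, pow_add]; exact Ideal.mul_mem_mul g3 h2

variable {r : ℕ}

/-- the ideal of the polynomials without constant term -/
noncomputable abbrev mm (r : ℕ) : Ideal (MvPolynomial (Fin r) ℤ) := idealOfVars (Fin r) ℤ

theorem hom_mem {P : MvPolynomial (Fin r) ℤ} {n : ℕ} (h : P.IsHomogeneous n) : P ∈ mm r ^ n := by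
  rw [mem_pow_idealOfVars_iff]
  intro x hx
  exact (h.degree_eq_sum_deg_support hx).le

theorem esymm_hom (n : ℕ) : (esymm (Fin r) ℤ n).IsHomogeneous n := by
  unfold esymm
  refine IsHomogeneous.sum _ _ _ fun s hs => ?_
  have h := IsHomogeneous.prod s (fun i => (X i : MvPolynomial (Fin r) ℤ)) (fun _ => 1)
    fun i _ => isHomogeneous_X ℤ i
  rw [Finset.sum_const, (Finset.mem_powersetCard.1 hs).2] at h
  simpa using h

/-- the weight of the monomial with exponents `m` -/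
def wt (m : Fin r →₀ ℕ) : ℕ := ∑ i, m i * ((i : ℕ) + 1)

theorem aeval_mono {A : Type*} [CommRing A] [Algebra ℤ A] (f : Fin r → A) (m : Fin r →₀ ℕ) (c : ℤ) :
    aeval f (monomial m c) = (c : A) * ∏ i, f i ^ m i := by
  rw [aeval_monomial, Finsupp.prod_fintype]
  · simp
  · intro i; simp

theorem mono_hom (m : Fin r →₀ ℕ) (c : ℤ) :
    (aeval (fun i : Fin r => esymm (Fin r) ℤ ((i : ℕ) + 1)) (monomial m c)).IsHomogeneous (wt m) := by
  rw [aeval_mono]
  have h1 : (∏ i : Fin r, esymm (Fin r) ℤ ((i : ℕ) + 1) ^ m i).IsHomogeneous (wt m) := by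
    unfold wt
    refine IsHomogeneous.prod _ _ _ fun i _ => ?_
    have := (esymm_hom (r := r) ((i : ℕ) + 1)).pow (m i)
    rwa [mul_comm] at this
  have h2 := (isHomogeneous_C (Fin r) c).mul h1
  rw [zero_add] at h2
  simpa using h2

theorem mono_cmp {ζ e : Fin r → MvPolynomial (Fin r) ℤ}
    (h : ∀ i : Fin r, ζ i ∈ mm r ^ ((i : ℕ) + 1) ∧ e i ∈ mm r ^ ((i : ℕ) + 1) ∧
      ζ i - e i ∈ mm r ^ ((i : ℕ) + 1 + 1)) (m : Fin r →₀ ℕ) (c : ℤ) :
    aeval ζ (monomial m c) - aeval e (monomial m c) ∈ mm r ^ (wt m + 1) := by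
  rw [aeval_mono, aeval_mono, ← mul_sub]
  refine Ideal.mul_mem_left _ _ ?_
  exact (prod_cmp (mm r) univ (fun i => ζ i ^ m i) (fun i => e i ^ m i)
    (fun i => m i * ((i : ℕ) + 1)) fun i _ => pow_cmp (mm r) (h i).1 (h i).2.1 (h i).2.2 (m i)).2.2

theorem exists_esymm {Φ : MvPolynomial (Fin r) ℤ} (hΦ : Φ.IsSymmetric) :
    ∃ Q : MvPolynomial (Fin r) ℤ, aeval (fun i : Fin r => esymm (Fin r) ℤ ((i : ℕ) + 1)) Q = Φ := by
  obtain ⟨Q, hQ⟩ := esymmAlgHom_surjective (σ := Fin r) (R := ℤ) (n := r) (by simp) ⟨Φ, hΦ⟩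
  refine ⟨Q, ?_⟩
  rw [← esymmAlgHom_apply, hQ]

/-- the leading part of a symmetric polynomial -/
theorem leading {Φ : MvPolynomial (Fin r) ℤ} (hΦ : Φ.IsSymmetric) {d : ℕ} (hd : Φ ∈ mm r ^ d) :
    ∃ (T : Finset (Fin r →₀ ℕ)) (c : (Fin r →₀ ℕ) → ℤ), (∀ m ∈ T, wt m = d) ∧
      Φ - ∑ m ∈ T, aeval (fun i : Fin r => esymm (Fin r) ℤ ((i : ℕ) + 1)) (monomial m (c m)) ∈
        mm r ^ (d + 1) := by
  classical
  obtain ⟨Q, hQ⟩ := exists_esymm hΦ
  set e : Fin r → MvPolynomial (Fin r) ℤ := fun i => esymm (Fin r) ℤ ((i : ℕ) + 1) with he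
  refine ⟨Q.support.filter fun m => wt m = d, fun m => Q.coeff m,
    fun m hm => (Finset.mem_filter.1 hm).2, ?_⟩
  rw [mem_pow_idealOfVars_iff']
  intro x hx
  have hsum : Φ = ∑ m ∈ Q.support, aeval e (monomial m (Q.coeff m)) := by
    rw [← map_sum, support_sum_monomial_coeff, hQ]
  rw [coeff_sub]
  rcases (Nat.lt_succ_iff.1 hx).lt_or_eq with hlt | heq
  · have e1 : coeff x Φ = 0 := (mem_pow_idealOfVars_iff' d Φ).1 hd x hlt
    have e2 : coeff x (∑ m ∈ Q.support.filter (fun m => wt m = d),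
        aeval e (monomial m (Q.coeff m))) = 0 := by
      rw [coeff_sum]
      refine Finset.sum_eq_zero fun m hm => ?_
      refine (mono_hom m (Q.coeff m)).coeff_eq_zero ?_
      rw [Finset.mem_filter] at hm
      rw [hm.2]
      exact hlt.ne
    rw [e1, e2, sub_zero]
  · rw [coeff_sum, Finset.sum_filter, sub_eq_zero, hsum, coeff_sum]
    refine Finset.sum_congr rfl fun m _ => ?_
    split_ifs with hm
    · rfl
    · refine (mono_hom m (Q.coeff m)).coeff_eq_zero ?_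
      rw [heq]
      exact fun h => hm h.symm

/-- the values of the elements of `𝔪 ^ K` at small points -/
theorem small {P : MvPolynomial (Fin r) ℤ} {K : ℕ} (h : P ∈ mm r ^ K) :
    ∃ C : ℝ, 0 ≤ C ∧ ∀ (ρ : ℝ) (x : Fin r → ℂ), 0 ≤ ρ → ρ ≤ 1 → (∀ i, ‖x i‖ ≤ ρ) →
      ‖aeval x P‖ ≤ C * ρ ^ K := by
  refine ⟨∑ m ∈ P.support, |((P.coeff m : ℤ) : ℝ)|, Finset.sum_nonneg fun _ _ => abs_nonneg _, ?_⟩
  intro ρ x h0 h1 hx
  have e : aeval x P = ∑ m ∈ P.support, aeval x (monomial m (P.coeff m)) := by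
    rw [← map_sum, support_sum_monomial_coeff]
  rw [e, Finset.sum_mul]
  refine (norm_sum_le _ _).trans (Finset.sum_le_sum fun m hm => ?_)
  rw [aeval_mono, norm_mul, norm_prod]
  have k1 : ‖((P.coeff m : ℤ) : ℂ)‖ = |((P.coeff m : ℤ) : ℝ)| := by rw [Complex.norm_intCast]
  rw [k1]
  refine mul_le_mul_of_nonneg_left ?_ (abs_nonneg _)
  have k2 : ∏ i, ‖x i ^ m i‖ ≤ ∏ i, ρ ^ m i := by
    refine Finset.prod_le_prod (fun i _ => norm_nonneg _) fun i _ => ?_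
    rw [norm_pow]
    exact pow_le_pow_left₀ (norm_nonneg _) (hx i) _
  refine k2.trans ?_
  rw [Finset.prod_pow_eq_pow_sum]
  refine pow_le_pow_of_le_one h0 h1 ?_
  have k3 := (mem_pow_idealOfVars_iff K P).1 h m hm
  rw [Finsupp.degree_eq_sum] at k3
  exact k3

end Pool.Agent.Helper28.SY
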