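import Mathlib

/-!
# Continuation of Euler products: closure properties and completion
-/

set_option autoImplicit false

namespace Pool.Agent.Helper28.SY

open Complex Filter Topology

/-- The term `f(p, k) p ^ (- k s) / k`, `k = x.2 + 1`, for `p > P`, and `0` for `p ≤ P`. -/
noncomputable def term (P : ℕ) (f : Nat.Primes → ℕ → ℂ) (s : ℂ) (x : Nat.Primes × ℕ) : ℂ :=
  if P < (x.1 : ℕ) then f x.1 (x.2 + 1) / ((x.2 : ℂ) + 1) * (((x.1 : ℕ) : ℂ) ^ (-s)) ^ (x.2 + 1)
  else 0

/-- The Euler product `∏_{p > P} exp (∑_{k ≥ 1} f(p, k) p ^ (- k s) / k)`. -/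
noncomputable def Z (P : ℕ) (f : Nat.Primes → ℕ → ℂ) (s : ℂ) : ℂ :=
  Complex.exp (∑' x : Nat.Primes × ℕ, term P f s x)

/-- `Z P f` has a meromorphic continuation to the complex plane: there is a meromorphic function
on `ℂ` which in some half-plane `Re s > σ`, where the series converges absolutely, agrees with
`Z P f`. -/
def Continues (P : ℕ) (f : Nat.Primes → ℕ → ℂ) : Prop :=
  ∃ F : ℂ → ℂ, MeromorphicOn F Set.univ ∧ ∃ σ : ℝ, ∀ s : ℂ, σ < s.re →
    Summable (term P f s) ∧ F s = Z P f s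

theorem pow_inj' : Function.Injective (fun x : Nat.Primes × ℕ => (x.1 : ℕ) ^ (x.2 + 1)) := by
  intro x y h
  simp only at h
  have hp : (x.1 : ℕ) = y.1 := by
    have h1 : (x.1 : ℕ) ∣ (y.1 : ℕ) ^ (y.2 + 1) := by
      rw [← h]; exact dvd_pow_self _ (by omega)
    exact (Nat.prime_dvd_prime_iff_eq x.1.2 y.1.2).1 (x.1.2.dvd_of_dvd_pow h1)
  have h2 : x.1 = y.1 := Subtype.ext hp
  have h3 : x.2 = y.2 := by
    rw [hp] at h
    have := Nat.pow_right_injective y.1.2.two_le h
    simpa using this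
  exact Prod.ext h2 h3

theorem summable_pp {a : ℝ} (ha : 1 < a) :
    Summable (fun x : Nat.Primes × ℕ => (((x.1 : ℕ) : ℝ) ^ (-a)) ^ (x.2 + 1)) := by
  have h1 : Summable (fun m : ℕ => (m : ℝ) ^ (-a)) := Real.summable_nat_rpow.2 (by linarith)
  have h2 := h1.comp_injective pow_inj'
  refine h2.congr fun x => ?_
  simp only [Function.comp]
  push_cast
  rw [← Real.rpow_natCast, ← Real.rpow_natCast, ← Real.rpow_mul (by positivity),
    ← Real.rpow_mul (by positivity)]
  ring_nf

theorem norm_cpow_prime (p : Nat.Primes) (s : ℂ) : ‖((p : ℕ) : ℂ) ^ (-s)‖ = ((p : ℕ) : ℝ) ^ (-s.re) := by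
  rw [Complex.norm_natCast_cpow_of_pos p.2.pos]
  simp

/-- the bound `|f(p, k)| ≤ C q ^ b`, `q = p ^ k` -/
def Bd (P : ℕ) (f : Nat.Primes → ℕ → ℂ) (C b : ℝ) : Prop :=
  ∀ (p : Nat.Primes) (k : ℕ), P < (p : ℕ) → 1 ≤ k → ‖f p k‖ ≤ C * (((p : ℕ) : ℝ) ^ b) ^ k

theorem term_bound {P : ℕ} {f : Nat.Primes → ℕ → ℂ} {C b : ℝ} (hC : 0 ≤ C) (h : Bd P f C b)
    {σ : ℝ} {s : ℂ} (hs : σ ≤ s.re) (x : Nat.Primes × ℕ) :
    ‖term P f s x‖ ≤ C * (((x.1 : ℕ) : ℝ) ^ (-(σ - b))) ^ (x.2 + 1) := by
  have hp0 : (0 : ℝ) < (x.1 : ℕ) := by exact_mod_cast x.1.2.pos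
  have hp1 : (1 : ℝ) ≤ (x.1 : ℕ) := by exact_mod_cast x.1.2.one_lt.le
  unfold term
  split_ifs with hP
  · rw [norm_mul, norm_div, norm_pow, norm_cpow_prime]
    have e2 : (1 : ℝ) ≤ ‖((x.2 : ℂ) + 1)‖ := by
      have : ((x.2 : ℂ) + 1) = ((x.2 + 1 : ℕ) : ℂ) := by push_cast; ring
      rw [this, Complex.norm_natCast]
      push_cast
      have : (0 : ℝ) ≤ x.2 := Nat.cast_nonneg _
      linarith
    have e3 : ‖f x.1 (x.2 + 1)‖ / ‖((x.2 : ℂ) + 1)‖ ≤ C * (((x.1 : ℕ) : ℝ) ^ b) ^ (x.2 + 1) :=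
      (div_le_self (norm_nonneg _) e2).trans (h x.1 (x.2 + 1) hP (by omega))
    have e4 : (((x.1 : ℕ) : ℝ) ^ (-s.re)) ^ (x.2 + 1) ≤ (((x.1 : ℕ) : ℝ) ^ (-σ)) ^ (x.2 + 1) := by
      apply pow_le_pow_left₀ (by positivity)
      exact Real.rpow_le_rpow_of_exponent_le hp1 (by linarith)
    refine (mul_le_mul e3 e4 (by positivity) (by positivity)).trans (le_of_eq ?_)
    rw [mul_assoc]
    congr 1
    rw [← mul_pow]
    congr 1
    rw [neg_sub, sub_eq_add_neg, Real.rpow_add hp0]
  · rw [norm_zero]; positivity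

theorem summable_term {P : ℕ} {f : Nat.Primes → ℕ → ℂ} {C b : ℝ} (hC : 0 ≤ C) (h : Bd P f C b)
    {s : ℂ} (hs : b + 1 < s.re) : Summable (term P f s) := by
  refine Summable.of_norm_bounded ((summable_pp (a := s.re - b) (by linarith)).mul_left C) fun x => ?_
  exact term_bound hC h le_rfl x

theorem differentiable_term (P : ℕ) (f : Nat.Primes → ℕ → ℂ) (x : Nat.Primes × ℕ) :
    Differentiable ℂ (fun s => term P f s x) := by
  unfold term
  by_cases hP : P < (x.1 : ℕ)
  · simp only [hP, if_true]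
    apply Differentiable.const_mul
    apply Differentiable.pow
    intro s
    have hp : ((x.1 : ℕ) : ℂ) ≠ 0 := by exact_mod_cast x.1.2.ne_zero
    exact (differentiableAt_id.neg).const_cpow (Or.inl hp)
  · simp only [hP, if_false]
    exact differentiable_const _

theorem analytic_Z {P : ℕ} {f : Nat.Primes → ℕ → ℂ} {C b : ℝ} (hC : 0 ≤ C) (h : Bd P f C b)
    {s : ℂ} (hs : b + 1 < s.re) : AnalyticAt ℂ (Z P f) s := by
  obtain ⟨σ, h1, h2⟩ := exists_between hs
  have ho : IsOpen {w : ℂ | σ < w.re} := isOpen_lt continuous_const Complex.continuous_re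
  have hd : DifferentiableOn ℂ (fun w => ∑' x : Nat.Primes × ℕ, term P f w x) {w : ℂ | σ < w.re} := by
    refine differentiableOn_tsum_of_summable_norm
      ((summable_pp (a := σ - b) (by linarith)).mul_left C)
      (fun x => (differentiable_term P f x).differentiableOn) ho fun x w hw => ?_
    exact term_bound hC h (le_of_lt hw) x
  have hd2 : DifferentiableOn ℂ (Z P f) {w : ℂ | σ < w.re} := hd.cexp
  exact hd2.analyticAt (ho.mem_nhds h2)

theorem mero_shift {R : ℂ → ℂ} {a w : ℂ} (h : MeromorphicAt R (w + a)) :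
    MeromorphicAt (fun z => R (z + a)) w := by
  have h3 : AnalyticAt ℂ (fun z : ℂ => z + a) w := by fun_prop
  exact MeromorphicAt.comp_analyticAt (f := R) (g := fun z : ℂ => z + a) (x := w) h h3

/-! ### closure properties -/

theorem Continues.congr {P : ℕ} {f g : Nat.Primes → ℕ → ℂ} (h : Continues P f)
    (he : ∀ (p : Nat.Primes) (k : ℕ), P < (p : ℕ) → 1 ≤ k → f p k = g p k) : Continues P g := by
  obtain ⟨F1, hF1, σ1, h1⟩ := h
  refine ⟨F1, hF1, σ1, fun s hs => ?_⟩
  obtain ⟨a1, a2⟩ := h1 s hs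
  have e : term P f s = term P g s := by
    ext x
    unfold term
    split_ifs with hP
    · rw [he x.1 (x.2 + 1) hP (by omega)]
    · rfl
  rw [← e]
  refine ⟨a1, ?_⟩
  rw [a2]
  unfold Z
  rw [e]

theorem continues_congr {P : ℕ} {f g : Nat.Primes → ℕ → ℂ}
    (he : ∀ (p : Nat.Primes) (k : ℕ), P < (p : ℕ) → 1 ≤ k → f p k = g p k) :
    Continues P f ↔ Continues P g :=
  ⟨fun h => h.congr he, fun h => h.congr fun p k hp hk => (he p k hp hk).symm⟩

theorem Continues.add {P : ℕ} {f g : Nat.Primes → ℕ → ℂ}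
    (h : Continues P f) (h' : Continues P g) : Continues P (fun p k => f p k + g p k) := by
  obtain ⟨F1, hF1, σ1, h1⟩ := h
  obtain ⟨F2, hF2, σ2, h2⟩ := h'
  refine ⟨F1 * F2, fun w hw => (hF1 w hw).mul (hF2 w hw), max σ1 σ2, fun s hs => ?_⟩
  obtain ⟨a1, a2⟩ := h1 s ((le_max_left _ _).trans_lt hs)
  obtain ⟨b1, b2⟩ := h2 s ((le_max_right _ _).trans_lt hs)
  have e : ∀ x, term P (fun p k => f p k + g p k) s x = term P f s x + term P g s x := by
    intro x
    unfold term
    split_ifs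
    · ring
    · simp
  refine ⟨(a1.add b1).congr fun x => (e x).symm, ?_⟩
  show F1 s * F2 s = _
  rw [a2, b2]
  unfold Z
  rw [← Complex.exp_add, ← a1.tsum_add b1]
  congr 1
  exact tsum_congr fun x => (e x).symm

theorem Continues.neg {P : ℕ} {f : Nat.Primes → ℕ → ℂ}
    (h : Continues P f) : Continues P (fun p k => - f p k) := by
  obtain ⟨F1, hF1, σ1, h1⟩ := h
  refine ⟨F1⁻¹, fun w hw => (hF1 w hw).inv, σ1, fun s hs => ?_⟩
  obtain ⟨a1, a2⟩ := h1 s hs
  have e : ∀ x, term P (fun p k => - f p k) s x = - term P f s x := by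
    intro x
    unfold term
    split_ifs
    · ring
    · simp
  refine ⟨a1.neg.congr fun x => (e x).symm, ?_⟩
  show (F1 s)⁻¹ = _
  rw [a2]
  unfold Z
  rw [← Complex.exp_neg, ← tsum_neg]
  congr 1
  exact tsum_congr fun x => (e x).symm

theorem continues_zero (P : ℕ) : Continues P (fun _ _ => 0) := by
  refine ⟨fun _ => 1, fun w _ => analyticAt_const.meromorphicAt, 0, fun s _ => ?_⟩
  have e : term P (fun _ _ => 0) s = fun _ => 0 := by
    ext x
    unfold term
    split_ifs <;> simp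
  rw [e]
  refine ⟨summable_zero, ?_⟩
  unfold Z
  rw [e]
  simp

theorem Continues.int_mul {P : ℕ} {f : Nat.Primes → ℕ → ℂ} (h : Continues P f) (a : ℤ) :
    Continues P (fun p k => (a : ℂ) * f p k) := by
  induction a using Int.induction_on with
  | zero =>
    refine (continues_zero P).congr fun p k _ _ => ?_
    simp
  | succ i ih =>
    refine (ih.add h).congr fun p k _ _ => ?_
    push_cast
    ring
  | pred i ih =>
    refine (ih.add h.neg).congr fun p k _ _ => ?_
    push_cast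
    ring

theorem Continues.sum {P : ℕ} {ι : Type} (S : Finset ι) {f : ι → Nat.Primes → ℕ → ℂ}
    (h : ∀ i ∈ S, Continues P (f i)) : Continues P (fun p k => ∑ i ∈ S, f i p k) := by
  classical
  induction S using Finset.induction_on with
  | empty => simpa using continues_zero P
  | insert a S ha ih =>
    refine ((h a (Finset.mem_insert_self a S)).add
      (ih fun i hi => h i (Finset.mem_insert_of_mem hi))).congr fun p k _ _ => ?_
    rw [Finset.sum_insert ha]

/-- multiplication by a power of `q` -/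
theorem Continues.shift {P : ℕ} {f : Nat.Primes → ℕ → ℂ} (h : Continues P f) (m : ℤ) :
    Continues P (fun p k => ((((p : ℕ) : ℂ) ^ k) ^ m) * f p k) := by
  obtain ⟨F, hF, σ, h1⟩ := h
  have e : ∀ (s : ℂ) (x : Nat.Primes × ℕ),
      term P (fun p k => ((((p : ℕ) : ℂ) ^ k) ^ m) * f p k) s x = term P f (s - m) x := by
    intro s x
    unfold term
    split_ifs with hP
    · have hp : ((x.1 : ℕ) : ℂ) ≠ 0 := by exact_mod_cast x.1.2.ne_zero
      have e2 : ((x.1 : ℕ) : ℂ) ^ (-(s - m)) = ((x.1 : ℕ) : ℂ) ^ (-s) * ((x.1 : ℕ) : ℂ) ^ m := by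
        rw [neg_sub, sub_eq_add_neg, add_comm, Complex.cpow_add _ _ hp, Complex.cpow_intCast]
      rw [e2, mul_pow]
      have e3 : (((x.1 : ℕ) : ℂ) ^ (x.2 + 1)) ^ m = (((x.1 : ℕ) : ℂ) ^ m) ^ (x.2 + 1) := by
        rw [← zpow_natCast, ← zpow_mul, ← zpow_natCast (((x.1 : ℕ) : ℂ) ^ m), ← zpow_mul, mul_comm]
      beta_reduce
      rw [e3]
      ring
    · rfl
  refine ⟨fun s => F (s - m), fun w _ => ?_, σ + m, fun s hs => ?_⟩
  · have := mero_shift (R := F) (a := -(m : ℂ)) (w := w) (hF _ (Set.mem_univ _))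
    simpa only [sub_eq_add_neg] using this
  · have hs' : σ < (s - m).re := by simp only [Complex.sub_re, Complex.intCast_re]; linarith
    obtain ⟨a1, a2⟩ := h1 (s - m) hs'
    refine ⟨a1.congr fun x => (e s x).symm, ?_⟩
    show F (s - m) = _
    rw [a2]
    unfold Z
    congr 1
    exact tsum_congr fun x => (e s x).symm

/-! ### completion -/

theorem identity_half {G H : ℂ → ℂ} {a : ℝ} (hG : ∀ z : ℂ, a < z.re → MeromorphicAt G z)
    (hH : ∀ z : ℂ, a < z.re → MeromorphicAt H z) {c : ℝ}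
    (hGH : ∀ z : ℂ, c < z.re → G z = H z) {w : ℂ} (hw : a < w.re) :
    ∀ᶠ z in 𝓝[≠] w, G z = H z := by
  set U : Set ℂ := {z : ℂ | a < z.re} with hU
  have hUo : IsOpen U := isOpen_lt continuous_const Complex.continuous_re
  have hUc : IsPreconnected U := (convex_halfSpace_re_gt a).isPreconnected
  have hD : MeromorphicOn (G - H) U := fun z hz => (hG z hz).sub (hH z hz)
  by_contra hne
  have h1 : meromorphicOrderAt (G - H) w ≠ ⊤ := by
    intro h
    rw [meromorphicOrderAt_eq_top_iff] at h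
    apply hne
    filter_upwards [h] with z hz
    simpa [sub_eq_zero] using hz
  set z0 : ℂ := ((max a c + 1 : ℝ) : ℂ) with hz0
  have hz0U : z0 ∈ U := by
    show a < z0.re
    rw [hz0, Complex.ofReal_re]
    linarith [le_max_left a c]
  have h2 : meromorphicOrderAt (G - H) z0 ≠ ⊤ :=
    hD.meromorphicOrderAt_ne_top_of_isPreconnected hUc hw hz0U h1
  apply h2
  rw [meromorphicOrderAt_eq_top_iff]
  refine Filter.Eventually.filter_mono nhdsWithin_le_nhds ?_
  have h5 : ∀ᶠ z : ℂ in 𝓝 z0, c < z.re :=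
    (Complex.continuous_re.tendsto z0).eventually (lt_mem_nhds (by
      rw [hz0, Complex.ofReal_re]; linarith [le_max_right a c]))
  filter_upwards [h5] with z hz
  simp [hGH z hz]

/-- **Completion.**  A function which is approximated by continuable ones up to `O(q ^ (-B))`, for every
`B`, is continuable. -/
theorem continues_of_approx {P : ℕ} {f : Nat.Primes → ℕ → ℂ}
    (h : ∀ B : ℕ, ∃ g : Nat.Primes → ℕ → ℂ, Continues P g ∧ ∃ C : ℝ, 0 ≤ C ∧
      Bd P (fun p k => f p k - g p k) C (-(B : ℝ))) : Continues P f := by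
  choose g hg C hC hb using h
  choose F hF σ hσ using hg
  have hterm : ∀ (B : ℕ) (s : ℂ) (x : Nat.Primes × ℕ),
      term P f s x = term P (g B) s x + term P (fun p k => f p k - g B p k) s x := by
    intro B s x
    unfold term
    split_ifs
    · ring
    · simp
  have hsr : ∀ (B : ℕ) (s : ℂ), 1 - (B : ℝ) < s.re →
      Summable (term P (fun p k => f p k - g B p k) s) := fun B s hs =>
    summable_term (hC B) (hb B) (by linarith)
  set G : ℕ → ℂ → ℂ := fun B s => F B s * Z P (fun p k => f p k - g B p k) s with hG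
  have hGm : ∀ (B : ℕ) (z : ℂ), 1 - (B : ℝ) < z.re → MeromorphicAt (G B) z := by
    intro B z hz
    exact (hF B z (Set.mem_univ z)).mul (analytic_Z (hC B) (hb B) (by linarith)).meromorphicAt
  have hsum : ∀ (B : ℕ) (s : ℂ), 1 - (B : ℝ) < s.re → σ B < s.re → Summable (term P f s) := by
    intro B s h1 h2
    exact (((hσ B s h2).1).add (hsr B s h1)).congr fun x => (hterm B s x).symm
  have hGf : ∀ (B : ℕ) (s : ℂ), 1 - (B : ℝ) < s.re → σ B < s.re → G B s = Z P f s := by
    intro B s h1 h2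
    show F B s * Z P (fun p k => f p k - g B p k) s = Z P f s
    rw [(hσ B s h2).2]
    unfold Z
    rw [← Complex.exp_add, ← (hσ B s h2).1.tsum_add (hsr B s h1)]
    congr 1
    exact tsum_congr fun x => (hterm B s x).symm
  have hagree : ∀ (B B' : ℕ) (w : ℂ), 1 - (B : ℝ) < w.re → 1 - (B' : ℝ) < w.re →
      ∀ᶠ z in 𝓝[≠] w, G B z = G B' z := by
    intro B B' w h1 h2
    have ha : max (1 - (B : ℝ)) (1 - (B' : ℝ)) < w.re := max_lt h1 h2
    refine identity_half (a := max (1 - (B : ℝ)) (1 - (B' : ℝ)))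
      (fun z hz => hGm B z ((le_max_left _ _).trans_lt hz))
      (fun z hz => hGm B' z ((le_max_right _ _).trans_lt hz))
      (c := max (max (1 - (B : ℝ)) (1 - (B' : ℝ))) (max (σ B) (σ B'))) (fun z hz => ?_) ha
    have k1 := (le_max_left _ _).trans_lt hz
    have k2 := (le_max_right _ _).trans_lt hz
    rw [hGf B z ((le_max_left _ _).trans_lt k1) ((le_max_left _ _).trans_lt k2),
      hGf B' z ((le_max_right _ _).trans_lt k1) ((le_max_right _ _).trans_lt k2)]
  set N : ℂ → ℕ := fun z => ⌊-z.re⌋₊ + 3 with hN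
  have hN1 : ∀ z : ℂ, -z.re + 2 < N z := by
    intro z
    have := Nat.lt_floor_add_one (-z.re)
    simp only [hN]
    push_cast
    linarith
  refine ⟨fun z => G (N z) z, fun w _ => ?_, max (max 0 (σ 3)) (σ 3), fun s hs => ?_⟩
  · have hall : ∀ᶠ z in 𝓝[≠] w, ∀ B ∈ Finset.range (N w + 2), 1 - (B : ℝ) < w.re →
        G B z = G (N w) z := by
      rw [Finset.eventually_all]
      intro B _
      by_cases hB : 1 - (B : ℝ) < w.re
      · filter_upwards [hagree B (N w) w hB (by linarith [hN1 w])] with z hz _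
        exact hz
      · exact Filter.Eventually.of_forall fun z hz => absurd hz hB
    have h5 : ∀ᶠ z : ℂ in 𝓝[≠] w, w.re - 1 / 2 < z.re ∧ z.re < w.re + 1 / 2 := by
      refine Filter.Eventually.filter_mono nhdsWithin_le_nhds ?_
      refine Filter.Eventually.and ?_ ?_
      · exact (Complex.continuous_re.tendsto w).eventually (lt_mem_nhds (by linarith))
      · exact (Complex.continuous_re.tendsto w).eventually (gt_mem_nhds (by linarith))
    refine (hGm (N w) w (by linarith [hN1 w])).congr ?_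
    filter_upwards [hall, h5] with z hz h6
    refine (hz (N z) ?_ ?_).symm
    · rw [Finset.mem_range]
      have : ⌊-z.re⌋₊ ≤ ⌊-w.re⌋₊ + 1 := by
        have h7 : ⌊-z.re⌋₊ ≤ ⌊-w.re + 1⌋₊ := Nat.floor_le_floor (by linarith)
        rcases le_or_gt 0 (-w.re) with h8 | h8
        · rw [Nat.floor_add_one h8] at h7
          exact h7
        · have h9 : ⌊-w.re + 1⌋₊ ≤ 1 := by
            have : ⌊-w.re + 1⌋₊ < 2 := (Nat.floor_lt' (by norm_num)).2 (by push_cast; linarith)
            omega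
          omega
      simp only [hN]
      omega
    · have := hN1 z
      linarith
  · have hs0 : 0 < s.re := ((le_max_left _ _).trans (le_max_left _ _)).trans_lt hs
    have hs3 : σ 3 < s.re := (le_max_right _ _).trans_lt hs
    have hNs : N s = 3 := by
      simp only [hN]
      rw [Nat.floor_of_nonpos (by linarith)]
    refine ⟨hsum 3 s (by push_cast; linarith) hs3, ?_⟩
    show G (N s) s = _
    rw [hNs]
    exact hGf 3 s (by push_cast; linarith) hs3

end Pool.Agent.Helper28.SY
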