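import Mathlib

/-!
# Invariant multisets of a bijection and fixed points of its powers
-/

set_option autoImplicit false

namespace Pool.Agent.Helper28.SY

open Function Finset

variable {Y : Type*}

/-- the multiset `{y, φ y, …, φ ^ (m - 1) y}` -/
def cyc (φ : Y → Y) (m : ℕ) (y : Y) : Multiset Y := (Multiset.range m).map fun i => φ^[i] y

theorem card_cyc (φ : Y → Y) (m : ℕ) (y : Y) : (cyc φ m y).card = m := by
  simp [cyc]

theorem cyc_succ (φ : Y → Y) (m : ℕ) (y : Y) : cyc φ (m + 1) y = φ^[m] y ::ₘ cyc φ m y := by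
  simp [cyc, Multiset.range_succ]

theorem cyc_succ' (φ : Y → Y) (m : ℕ) (y : Y) : cyc φ (m + 1) y = y ::ₘ (cyc φ m y).map φ := by
  induction m with
  | zero => simp [cyc]
  | succ m ih =>
    rw [cyc_succ]
    conv_lhs => rw [ih]
    rw [cyc_succ, Multiset.map_cons, Multiset.cons_swap, ← Function.iterate_succ_apply' φ]

theorem map_cyc {φ : Y → Y} {m : ℕ} {y : Y} (h : φ^[m] y = y) : (cyc φ m y).map φ = cyc φ m y := by
  have h1 := cyc_succ φ m y
  have h2 := cyc_succ' φ m y
  rw [h1, h] at h2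
  exact (Multiset.cons_inj_right y).1 h2.symm

theorem mem_cyc {φ : Y → Y} {m : ℕ} {y z : Y} : z ∈ cyc φ m y ↔ ∃ i < m, φ^[i] y = z := by
  simp [cyc]

section
variable [DecidableEq Y]

theorem count_map_inv {φ : Y → Y} (hφ : Injective φ) {D : Multiset Y} (hD : D.map φ = D) (z : Y) :
    D.count (φ z) = D.count z := by
  conv_lhs => rw [← hD]
  exact Multiset.count_map_eq_count' φ D hφ z

theorem count_iter {φ : Y → Y} (hφ : Injective φ) {D : Multiset Y} (hD : D.map φ = D) (z : Y)
    (i : ℕ) : D.count (φ^[i] z) = D.count z := by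
  induction i with
  | zero => rfl
  | succ i ih => rw [Function.iterate_succ_apply', count_map_inv hφ hD, ih]

theorem period_of_mem {φ : Y → Y} (hφ : Injective φ) {D : Multiset Y} (hD : D.map φ = D) {y : Y}
    (hy : y ∈ D) : ∃ m, 1 ≤ m ∧ m ≤ D.card ∧ φ^[m] y = y := by
  have hmem : ∀ i, φ^[i] y ∈ D := by
    intro i
    rw [← Multiset.count_pos, count_iter hφ hD, Multiset.count_pos]
    exact hy
  have hcard : D.toFinset.card < (Finset.range (D.card + 1)).card := by
    rw [Finset.card_range]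
    exact Nat.lt_succ_of_le (Multiset.toFinset_card_le D)
  obtain ⟨i, hi, j, hj, hij, h⟩ := Finset.exists_ne_map_eq_of_card_lt_of_maps_to hcard
    (f := fun i => φ^[i] y) fun i _ => by
      rw [Finset.mem_coe, Multiset.mem_toFinset]; exact hmem i
  rw [Finset.mem_range] at hi hj
  wlog hlt : i < j generalizing i j
  · exact this j hj i hi (Ne.symm hij) h.symm (by omega)
  refine ⟨j - i, by omega, by omega, ?_⟩
  have h1 : φ^[i] (φ^[j - i] y) = φ^[i] y := by
    rw [← Function.iterate_add_apply]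
    rw [show i + (j - i) = j by omega]
    exact h.symm
  exact hφ.iterate i h1

theorem count_cyc {φ : Y → Y} {y : Y} (ho : 0 < minimalPeriod φ y) (j : ℕ) :
    (cyc φ (j * minimalPeriod φ y) y).count y = j := by
  induction j with
  | zero => simp [cyc]
  | succ j ih =>
    set o := minimalPeriod φ y with hoo
    have e : cyc φ ((j + 1) * o) y = cyc φ (j * o) y + cyc φ o y := by
      have h1 : ∀ t, cyc φ (j * o + t) y = cyc φ (j * o) y + cyc φ t y := by
        intro t
        induction t with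
        | zero => simp [cyc]
        | succ t iht =>
          rw [← add_assoc, cyc_succ, iht, cyc_succ, Multiset.add_cons]
          congr 1
          rw [add_comm (j * o) t, Function.iterate_add_apply]
          congr 1
          have h2 : φ^[j * o] y = y := by
            have h3 : IsPeriodicPt φ (j * o) y := by
              rw [isPeriodicPt_iff_minimalPeriod_dvd]
              exact Dvd.intro_left j rfl
            exact h3
          exact h2
      rw [add_mul, one_mul]
      exact h1 o
    rw [e, Multiset.count_add, ih]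
    congr 1
    obtain ⟨t, ht⟩ : ∃ t, o = t + 1 := ⟨o - 1, by omega⟩
    have h4 : φ^[t + 1] y = y := by rw [← ht]; exact isPeriodicPt_minimalPeriod φ y
    rw [ht, cyc_succ', Multiset.count_cons_self]
    have h5 : y ∉ (cyc φ t y).map φ := by
      intro hmem
      rw [Multiset.mem_map] at hmem
      obtain ⟨z, hz, hzy⟩ := hmem
      obtain ⟨i, hi, rfl⟩ := mem_cyc.1 hz
      rw [← Function.iterate_succ_apply' φ] at hzy
      have h6 : minimalPeriod φ y ∣ (i + 1) := by
        rw [← isPeriodicPt_iff_minimalPeriod_dvd]; exact hzy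
      have h7 := Nat.le_of_dvd (Nat.succ_pos i) h6
      rw [← hoo] at h7
      omega
    rw [Multiset.count_eq_zero_of_notMem h5]

theorem cyc_le_iff {φ : Y → Y} (hφ : Injective φ) {D : Multiset Y} (hD : D.map φ = D) {y : Y}
    (ho : 0 < minimalPeriod φ y) (j : ℕ) : cyc φ (j * minimalPeriod φ y) y ≤ D ↔ j ≤ D.count y := by
  have hper : φ^[j * minimalPeriod φ y] y = y := by
    have h3 : IsPeriodicPt φ (j * minimalPeriod φ y) y := by
      rw [isPeriodicPt_iff_minimalPeriod_dvd]
      exact Dvd.intro_left j rfl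
    exact h3
  constructor
  · intro h
    have := Multiset.count_le_of_le y h
    rwa [count_cyc ho] at this
  · intro h
    rw [Multiset.le_iff_count]
    intro z
    by_cases hz : z ∈ cyc φ (j * minimalPeriod φ y) y
    · obtain ⟨i, _, rfl⟩ := mem_cyc.1 hz
      rw [count_iter hφ (map_cyc hper), count_iter hφ hD, count_cyc ho]
      exact h
    · rw [Multiset.count_eq_zero_of_notMem hz]
      exact Nat.zero_le _

theorem count_eq {φ : Y → Y} (hφ : Injective φ) {D : Multiset Y} (hD : D.map φ = D) (y : Y) :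
    D.count y = ((Finset.Icc 1 D.card).filter fun m => φ^[m] y = y ∧ cyc φ m y ≤ D).card := by
  by_cases hy : y ∈ D
  · obtain ⟨m0, hm0, _, hper0⟩ := period_of_mem hφ hD hy
    have ho : 0 < minimalPeriod φ y := IsPeriodicPt.minimalPeriod_pos hm0 hper0
    have e : ((Finset.Icc 1 D.card).filter fun m => φ^[m] y = y ∧ cyc φ m y ≤ D) =
        (Finset.Icc 1 (D.count y)).image fun j => j * minimalPeriod φ y := by
      ext m
      rw [Finset.mem_filter, Finset.mem_Icc, Finset.mem_image]
      constructor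
      · rintro ⟨⟨h1, h2⟩, h3, h4⟩
        have h5 : minimalPeriod φ y ∣ m := by
          rw [← isPeriodicPt_iff_minimalPeriod_dvd]; exact h3
        obtain ⟨j, rfl⟩ := h5
        rw [mul_comm] at h4 h1 ⊢
        refine ⟨j, ?_, rfl⟩
        rw [Finset.mem_Icc]
        refine ⟨?_, (cyc_le_iff hφ hD ho j).1 h4⟩
        rcases Nat.eq_zero_or_pos j with h | h
        · rw [h, zero_mul] at h1; omega
        · exact h
      · rintro ⟨j, hj, rfl⟩
        rw [Finset.mem_Icc] at hj
        have h4 := (cyc_le_iff hφ hD ho j).2 hj.2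
        refine ⟨⟨Nat.mul_pos hj.1 ho, ?_⟩, ?_, h4⟩
        · have := Multiset.card_le_card h4
          rwa [card_cyc] at this
        · have h3 : IsPeriodicPt φ (j * minimalPeriod φ y) y := by
            rw [isPeriodicPt_iff_minimalPeriod_dvd]
            exact Dvd.intro_left j rfl
          exact h3
    rw [e, Finset.card_image_of_injective _ (fun a b h => Nat.eq_of_mul_eq_mul_right ho h)]
    simp
  · rw [Multiset.count_eq_zero_of_notMem hy]
    symm
    rw [Finset.card_eq_zero, Finset.filter_eq_empty_iff]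
    rintro m hm ⟨_, h⟩
    rw [Finset.mem_Icc] at hm
    apply hy
    exact Multiset.mem_of_le h (mem_cyc.2 ⟨0, by omega, rfl⟩)

end

/-- the invariant multisets of cardinality `n` -/
def inv (φ : Y → Y) (n : ℕ) : Set (Multiset Y) := {D | D.card = n ∧ D.map φ = D}

theorem finite_inv {φ : Y → Y} (hφ : Injective φ) (hfin : ∀ m, 1 ≤ m → {y | φ^[m] y = y}.Finite)
    (n : ℕ) : (inv φ n).Finite := by
  classical
  set W : Finset Y := (Finset.Icc 1 n).biUnion fun m =>
    if h : 1 ≤ m then (hfin m h).toFinset else ∅ with hW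
  refine (Set.finite_Iic (n • W.val)).subset ?_
  rintro D ⟨h1, h2⟩
  rw [Set.mem_Iic, Multiset.le_iff_count]
  intro y
  by_cases hy : y ∈ D
  · obtain ⟨m, hm1, hm2, hm3⟩ := period_of_mem hφ h2 hy
    have hyW : y ∈ W := by
      rw [hW, Finset.mem_biUnion]
      refine ⟨m, by rw [Finset.mem_Icc]; omega, ?_⟩
      rw [dif_pos hm1, Set.Finite.mem_toFinset]
      exact hm3
    rw [Multiset.count_nsmul, Multiset.count_eq_one_of_mem W.nodup hyW, mul_one, ← h1]
    exact Multiset.count_le_card y D
  · rw [Multiset.count_eq_zero_of_notMem hy]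
    exact Nat.zero_le _

theorem ncard_ge {φ : Y → Y} {m n : ℕ} {y : Y} (hy : φ^[m] y = y) (hmn : m ≤ n) :
    {D ∈ inv φ n | cyc φ m y ≤ D}.ncard = (inv φ (n - m)).ncard := by
  symm
  refine Set.ncard_congr (fun D _ => D + cyc φ m y) ?_ ?_ ?_
  · rintro D ⟨h1, h2⟩
    refine ⟨⟨?_, ?_⟩, Multiset.le_add_left _ _⟩
    · rw [Multiset.card_add, h1, card_cyc]; omega
    · rw [Multiset.map_add, h2, map_cyc hy]
  · intro D D' _ _ h
    exact add_right_cancel h
  · rintro D ⟨⟨h1, h2⟩, h3⟩
    obtain ⟨D', rfl⟩ := Multiset.le_iff_exists_add.1 h3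
    refine ⟨D', ⟨?_, ?_⟩, add_comm _ _⟩
    · rw [Multiset.card_add, card_cyc] at h1; omega
    · rw [Multiset.map_add, map_cyc hy] at h2
      exact add_left_cancel h2

/-- **The recursion** -/
theorem inv_rec {φ : Y → Y} (hφ : Injective φ) (hfin : ∀ m, 1 ≤ m → {y | φ^[m] y = y}.Finite)
    (n : ℕ) : n * (inv φ n).ncard =
      ∑ m ∈ Finset.Icc 1 n, {y | φ^[m] y = y}.ncard * (inv φ (n - m)).ncard := by
  classical
  have hF := finite_inv hφ hfin
  set F : ℕ → Finset (Multiset Y) := fun n => (hF n).toFinset with hFF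
  have hFn : ∀ n, (inv φ n).ncard = (F n).card := fun n => Set.ncard_eq_toFinset_card _ (hF n)
  set Pm : ℕ → Finset Y := fun m => if h : 1 ≤ m then (hfin m h).toFinset else ∅ with hPm
  have hP : ∀ m, 1 ≤ m → {y | φ^[m] y = y}.ncard = (Pm m).card := by
    intro m hm
    simp only [hPm, dif_pos hm]
    exact Set.ncard_eq_toFinset_card _ (hfin m hm)
  have hPmem : ∀ m, 1 ≤ m → ∀ y, y ∈ Pm m ↔ φ^[m] y = y := by
    intro m hm y
    simp only [hPm, dif_pos hm, Set.Finite.mem_toFinset, Set.mem_ofPred_eq]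
  set W : Finset Y := (Finset.Icc 1 n).biUnion Pm with hW
  have hFmem : ∀ n D, D ∈ F n ↔ D ∈ inv φ n := fun n D => by
    simp only [hFF, Set.Finite.mem_toFinset]
  have h1 : n * (F n).card = ∑ D ∈ F n, ∑ y ∈ W, D.count y := by
    rw [mul_comm, ← smul_eq_mul, ← Finset.sum_const]
    refine Finset.sum_congr rfl fun D hD => ?_
    obtain ⟨k1, k2⟩ := (hFmem n D).1 hD
    rw [Multiset.sum_count_eq_card, k1]
    intro y hy
    obtain ⟨m, hm1, hm2, hm3⟩ := period_of_mem hφ k2 hy
    rw [hW, Finset.mem_biUnion]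
    exact ⟨m, by rw [Finset.mem_Icc]; omega, (hPmem m hm1 y).2 hm3⟩
  have h2 : ∀ D ∈ F n, ∀ y, D.count y =
      ∑ m ∈ Finset.Icc 1 n, if φ^[m] y = y ∧ cyc φ m y ≤ D then 1 else 0 := by
    intro D hD y
    obtain ⟨k1, k2⟩ := (hFmem n D).1 hD
    rw [count_eq hφ k2 y, k1, Finset.card_filter]
  rw [hFn, h1, Finset.sum_congr rfl fun D hD => Finset.sum_congr rfl fun y _ => h2 D hD y]
  rw [Finset.sum_congr rfl fun D _ => Finset.sum_comm, Finset.sum_comm]
  refine Finset.sum_congr rfl fun m hm => ?_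
  rw [Finset.mem_Icc] at hm
  rw [Finset.sum_comm, hP m hm.1, hFn, ← smul_eq_mul, ← Finset.sum_const]
  have hsub : Pm m ⊆ W := Finset.subset_biUnion_of_mem Pm (by rw [Finset.mem_Icc]; exact hm)
  rw [← Finset.sum_subset hsub]
  · refine Finset.sum_congr rfl fun y hy => ?_
    have hy' := (hPmem m hm.1 y).1 hy
    rw [← hFn, ← ncard_ge hy' hm.2, ← Finset.card_filter, ← Set.ncard_coe_finset]
    congr 1
    ext D
    simp only [Finset.coe_filter, Set.mem_ofPred_eq, hFmem, hy', true_and]
  · intro y _ hy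
    refine Finset.sum_eq_zero fun D _ => ?_
    rw [if_neg]
    rintro ⟨h, _⟩
    exact hy ((hPmem m hm.1 y).2 h)

end Pool.Agent.Helper28.SY
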