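import Pool.Agent.Helper28.SY.Sch
import Pool.Agent.Helper28.SY.Count
import Pool.Agent.Helper28.SY.Cont

/-!
# Points of symmetric powers: definitions
-/

set_option autoImplicit false

namespace Pool.Agent.Helper28.SY

open CategoryTheory AlgebraicGeometry

/-- The Frobenius map `x ↦ x ∘ Spec (a ↦ a ^ p)` on the geometric points of `X` in characteristic
`p`. -/
noncomputable def frob (X : Scheme.{0}) (p : ℕ) [Fact p.Prime] (x : Pts X (AlgebraicClosure (ZMod p))) :
    Pts X (AlgebraicClosure (ZMod p)) :=
  Spec.map (CommRingCat.ofHom (frobenius (AlgebraicClosure (ZMod p)) p)) ≫ x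

/-- `#X(𝔽_q)`, `q = p ^ k`. -/
noncomputable def points (X : Scheme.{0}) (p : Nat.Primes) (k : ℕ) : ℕ :=
  haveI : Fact (p : ℕ).Prime := ⟨p.2⟩
  Nat.card (Pts X (GaloisField (p : ℕ) k))

/-- `#(Symⁿ X)(𝔽_q)`, `q = p ^ k`: the number of the multisets of `n` geometric points of `X` in
characteristic `p` (effective zero-cycles of degree `n`) which are invariant under the `k`-th power of
the Frobenius map. -/
noncomputable def symPoints (X : Scheme.{0}) (n : ℕ) (p : Nat.Primes) (k : ℕ) : ℕ :=
  haveI : Fact (p : ℕ).Prime := ⟨p.2⟩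
  Nat.card {D : Multiset (Pts X (AlgebraicClosure (ZMod (p : ℕ)))) //
    Multiset.card D = n ∧ D.map (frob X (p : ℕ))^[k] = D}

section
variable (X : Scheme.{0}) (p : ℕ) [Fact p.Prime]

theorem frob_iter (k : ℕ) (x : Pts X (AlgebraicClosure (ZMod p))) :
    (frob X p)^[k] x = push (iterateFrobenius (AlgebraicClosure (ZMod p)) p k) x := by
  induction k generalizing x with
  | zero =>
    rw [iterateFrobenius_zero]
    simp [push]
  | succ k ih =>
    rw [Function.iterate_succ_apply, ih]
    unfold push frob
    rw [← Category.assoc, ← Spec.map_comp]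
    congr 2
    ext a
    simp only [iterateFrobenius_def, frobenius_def, CommRingCat.hom_comp, CommRingCat.hom_ofHom,
      RingHom.comp_apply]
    rw [← pow_mul, ← pow_succ']

theorem frob_injective : Function.Injective (frob X p) := by
  have h := push_injective (X := X) (frobenius (AlgebraicClosure (ZMod p)) p)
  exact h

/-- an embedding of the finite field into the algebraic closure -/
noncomputable def emb (k : ℕ) : GaloisField p k →+* AlgebraicClosure (ZMod p) :=
  (IsAlgClosed.lift : GaloisField p k →ₐ[ZMod p] AlgebraicClosure (ZMod p)).toRingHom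

theorem mem_range_emb {k : ℕ} (hk : k ≠ 0) (a : AlgebraicClosure (ZMod p)) :
    iterateFrobenius (AlgebraicClosure (ZMod p)) p k a = a ↔ a ∈ (emb p k).range := by
  classical
  have hq : 1 < p ^ k := Nat.one_lt_pow hk (Fact.out : p.Prime).one_lt
  have : Finite (GaloisField p k) := Nat.finite_of_card_ne_zero (by
    rw [GaloisField.card p k hk]; positivity)
  have := Fintype.ofFinite (GaloisField p k)
  have hcard : Fintype.card (GaloisField p k) = p ^ k := by
    rw [← Nat.card_eq_fintype_card, GaloisField.card p k hk]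
  set f : Polynomial (AlgebraicClosure (ZMod p)) := Polynomial.X ^ (p ^ k) - Polynomial.X with hf
  have hf0 : f ≠ 0 := FiniteField.X_pow_card_sub_X_ne_zero _ hq
  have hfd : f.natDegree = p ^ k := FiniteField.X_pow_card_sub_X_natDegree_eq _ hq
  set R : Finset (AlgebraicClosure (ZMod p)) := Finset.univ.image (emb p k) with hR
  have hRc : R.card = p ^ k := by
    rw [hR, Finset.card_image_of_injective _ (emb p k).injective, Finset.card_univ, hcard]
  have hsub : R ⊆ f.roots.toFinset := by
    intro b hb
    rw [hR, Finset.mem_image] at hb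
    obtain ⟨c, _, rfl⟩ := hb
    rw [Multiset.mem_toFinset, Polynomial.mem_roots hf0, Polynomial.IsRoot, hf]
    simp only [Polynomial.eval_sub, Polynomial.eval_pow, Polynomial.eval_X]
    rw [← map_pow, ← hcard, FiniteField.pow_card, sub_self]
  have hle : f.roots.toFinset.card ≤ R.card := by
    rw [hRc, ← hfd]
    exact (Multiset.toFinset_card_le _).trans (Polynomial.card_roots' f)
  have heq : R = f.roots.toFinset := Finset.eq_of_subset_of_card_le hsub hle
  have h1 : a ∈ (emb p k).range ↔ a ∈ R := by
    rw [hR, Finset.mem_image, RingHom.mem_range]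
    simp
  rw [h1, heq, Multiset.mem_toFinset, Polynomial.mem_roots hf0, Polynomial.IsRoot, hf]
  simp only [Polynomial.eval_sub, Polynomial.eval_pow, Polynomial.eval_X]
  rw [sub_eq_zero, iterateFrobenius_def]

theorem card_pts {k : ℕ} (hk : k ≠ 0) :
    Nat.card (Pts X (GaloisField p k)) = {x | (frob X p)^[k] x = x}.ncard := by
  rw [card_fixed (X := X) (emb p k) (iterateFrobenius (AlgebraicClosure (ZMod p)) p k)
    (mem_range_emb p hk)]
  simp only [frob_iter]

end

/-- **The recursion for the symmetric powers.** -/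
theorem symPoints_rec (X : Scheme.{0}) (p : Nat.Primes) {k : ℕ} (hk : k ≠ 0)
    (hfin : ∀ m, 1 ≤ m → points X p (k * m) ≠ 0) (n : ℕ) :
    n * symPoints X n p k = ∑ m ∈ Finset.Icc 1 n, points X p (k * m) * symPoints X (n - m) p k := by
  have : Fact (p : ℕ).Prime := ⟨p.2⟩
  have h0 : ∀ m, 1 ≤ m → points X p (k * m) = {x | ((frob X (p : ℕ))^[k])^[m] x = x}.ncard := by
    intro m hm
    unfold points
    rw [card_pts X (p : ℕ) (k := k * m) (Nat.mul_ne_zero hk (by omega))]
    simp only [Function.iterate_mul]
  have h1 : ∀ m, 1 ≤ m → {x | ((frob X (p : ℕ))^[k])^[m] x = x}.Finite := by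
    intro m hm
    apply Set.finite_of_ncard_ne_zero
    rw [← h0 m hm]
    exact hfin m hm
  have h2 := inv_rec ((frob_injective X (p : ℕ)).iterate k) h1 n
  have h3 : ∀ n, symPoints X n p k = (inv (frob X (p : ℕ))^[k] n).ncard := by
    intro n
    rw [← Nat.card_coe_set_eq]
    rfl
  rw [h3, h2]
  refine Finset.sum_congr rfl fun m hm => ?_
  rw [Finset.mem_Icc] at hm
  rw [h0 m hm.1, h3]

theorem symPoints_zero (X : Scheme.{0}) (p : Nat.Primes) (k : ℕ) : symPoints X 0 p k = 1 := by
  have : Fact (p : ℕ).Prime := ⟨p.2⟩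
  unfold symPoints
  rw [Nat.card_eq_one_iff_unique]
  refine ⟨⟨fun a b => Subtype.ext ?_⟩, ⟨⟨0, by simp⟩⟩⟩
  rw [Multiset.card_eq_zero.1 a.2.1, Multiset.card_eq_zero.1 b.2.1]

end Pool.Agent.Helper28.SY
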