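import Pool.Agent.Helper28.SY.Alg

/-!
# The generating series of the symmetric powers
-/

set_option autoImplicit false

namespace Pool.Agent.Helper28.SY

open Finset

variable {r : ℕ}


/-- `∏_{i ∈ S} x_i` -/
noncomputable def xS (S : Finset (Fin r)) : MvPolynomial (Fin r) ℤ := ∏ i ∈ S, MvPolynomial.X i

/-- `∑ y ^ n T ^ n` -/
noncomputable def geo (y : MvPolynomial (Fin r) ℤ) : PowerSeries (MvPolynomial (Fin r) ℤ) := PowerSeries.mk fun n => y ^ n

/-- `1 - y T` -/
noncomputable def lin (y : MvPolynomial (Fin r) ℤ) : PowerSeries (MvPolynomial (Fin r) ℤ) := 1 - PowerSeries.C y * PowerSeries.X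

/-- `(1 - x_S T) ^ (-(-1) ^ |S|)` -/
noncomputable def V (S : Finset (Fin r)) : PowerSeries (MvPolynomial (Fin r) ℤ) :=
  if Even S.card then geo (xS S) else lin (xS S)

theorem geo_mul_lin (y : MvPolynomial (Fin r) ℤ) : geo y * lin y = 1 := by
  ext n : 1
  unfold geo lin
  rw [mul_sub, mul_one, map_sub, ← mul_assoc, mul_comm _ PowerSeries.X]
  rcases n with _ | n
  · simp
  · rw [PowerSeries.coeff_succ_X_mul, mul_comm _ (PowerSeries.C y), PowerSeries.coeff_C_mul,
      PowerSeries.coeff_mk, PowerSeries.coeff_mk, PowerSeries.coeff_one, if_neg (Nat.succ_ne_zero n),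
      pow_succ, mul_comm, sub_self]

/-- the logarithmic derivative of `V S` -/
noncomputable def a (S : Finset (Fin r)) : PowerSeries (MvPolynomial (Fin r) ℤ) :=
  PowerSeries.C ((-1) ^ S.card) * (geo (xS S) - 1)

open PowerSeries in
theorem dlog (S : Finset (Fin r)) :
    (X : PowerSeries (MvPolynomial (Fin r) ℤ)) * d⁄dX (MvPolynomial (Fin r) ℤ) (V S) = V S * a S := by
  have h1 := geo_mul_lin (xS S)
  have h2 : (X : PowerSeries (MvPolynomial (Fin r) ℤ)) * d⁄dX (MvPolynomial (Fin r) ℤ) (lin (xS S)) = lin (xS S) - 1 := by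
    unfold lin
    rw [map_sub, Derivation.leibniz]
    simp
    ring
  unfold V a
  split_ifs with h
  · rw [h.neg_one_pow, map_one, one_mul]
    have h3 : d⁄dX (MvPolynomial (Fin r) ℤ) (geo (xS S) * lin (xS S)) = 0 := by rw [h1]; simp
    rw [Derivation.leibniz, smul_eq_mul, smul_eq_mul] at h3
    linear_combination (geo (xS S) * X) * h3 - (geo (xS S)) ^ 2 * h2 - (geo (xS S) + X * d⁄dX (MvPolynomial (Fin r) ℤ) (geo (xS S))) * h1
  · rw [Nat.not_even_iff_odd] at h
    rw [h.neg_one_pow, map_neg, map_one, h2]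
    linear_combination h1

/-- the generating series of the symmetric powers -/
noncomputable def H (r : ℕ) : PowerSeries (MvPolynomial (Fin r) ℤ) := ∏ S : Finset (Fin r), V S

open PowerSeries in
theorem dlog_prod (s : Finset (Finset (Fin r))) :
    (X : PowerSeries (MvPolynomial (Fin r) ℤ)) * d⁄dX (MvPolynomial (Fin r) ℤ) (∏ S ∈ s, V S) = (∏ S ∈ s, V S) * ∑ S ∈ s, a S := by
  classical
  induction s using Finset.induction_on with
  | empty => simp
  | insert S s hS ih =>
    rw [Finset.prod_insert hS, Finset.sum_insert hS, Derivation.leibniz, smul_eq_mul, smul_eq_mul]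
    linear_combination (V S) * ih + (∏ S ∈ s, V S) * dlog S

theorem sum_a (n : ℕ) : PowerSeries.coeff n (∑ S : Finset (Fin r), a S) =
    if n = 0 then 0 else ∏ i, (1 - MvPolynomial.X i ^ n) := by
  rw [map_sum]
  have h1 : ∀ S : Finset (Fin r), PowerSeries.coeff n (a S) =
      if n = 0 then 0 else (-1) ^ S.card * xS S ^ n := by
    intro S
    unfold a geo
    rw [PowerSeries.coeff_C_mul, map_sub, PowerSeries.coeff_mk, PowerSeries.coeff_one]
    split_ifs with h
    · rw [h]; simp
    · simp
  rw [Finset.sum_congr rfl fun S _ => h1 S]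
  split_ifs with h
  · simp
  · have h2 := Finset.prod_one_add (f := fun i : Fin r => -(MvPolynomial.X i ^ n : MvPolynomial (Fin r) ℤ)) (s := univ)
    simp only [← sub_eq_add_neg, Finset.powerset_univ] at h2
    rw [h2]
    refine Finset.sum_congr rfl fun S _ => ?_
    rw [Finset.prod_neg, xS, Finset.prod_pow]

theorem H_rec (n : ℕ) : (n : MvPolynomial (Fin r) ℤ) * PowerSeries.coeff n (H r) =
    ∑ ij ∈ antidiagonal n, PowerSeries.coeff ij.1 (H r) *
      (if ij.2 = 0 then 0 else ∏ i, (1 - MvPolynomial.X i ^ ij.2)) := by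
  have h := congrArg (PowerSeries.coeff n) (dlog_prod (r := r) univ)
  have e : PowerSeries.coeff n (PowerSeries.X * PowerSeries.derivative (MvPolynomial (Fin r) ℤ) (∏ S : Finset (Fin r), V S)) =
      (n : MvPolynomial (Fin r) ℤ) * PowerSeries.coeff n (∏ S : Finset (Fin r), V S) := by
    rcases n with _ | n
    · simp
    · rw [PowerSeries.coeff_succ_X_mul, PowerSeries.coeff_derivative]
      push_cast
      ring
  rw [e, PowerSeries.coeff_mul] at h
  unfold H
  rw [h]
  exact Finset.sum_congr rfl fun ij _ => by rw [sum_a]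

/-- `U = (1 - T) H` -/
noncomputable def U (r : ℕ) : PowerSeries (MvPolynomial (Fin r) ℤ) := ∏ S ∈ (univ : Finset (Finset (Fin r))).erase ∅, V S

theorem lin_mul_H : lin 1 * H r = U r := by
  unfold H U
  rw [← Finset.mul_prod_erase univ V (Finset.mem_univ ∅)]
  have : V (∅ : Finset (Fin r)) = geo 1 := by simp [V, xS]
  rw [this, ← mul_assoc, mul_comm (lin 1), geo_mul_lin, one_mul]

theorem coeff_U_succ (n : ℕ) : PowerSeries.coeff (n + 1) (U r) =
    PowerSeries.coeff (n + 1) (H r) - PowerSeries.coeff n (H r) := by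
  rw [← lin_mul_H]
  unfold lin
  rw [map_one, one_mul, sub_mul, one_mul, map_sub, PowerSeries.coeff_succ_X_mul]

theorem V_zero (S : Finset (Fin r)) : PowerSeries.coeff 0 (V S) = 1 := by
  unfold V geo lin
  split_ifs <;> simp

theorem H_zero : PowerSeries.coeff 0 (H r) = 1 := by
  unfold H
  rw [PowerSeries.coeff_zero_eq_constantCoeff, map_prod]
  refine Finset.prod_eq_one fun S _ => ?_
  have := V_zero S
  rwa [PowerSeries.coeff_zero_eq_constantCoeff] at this

theorem U_zero : PowerSeries.coeff 0 (U r) = 1 := by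
  unfold U
  rw [PowerSeries.coeff_zero_eq_constantCoeff, map_prod]
  refine Finset.prod_eq_one fun S _ => ?_
  have := V_zero S
  rwa [PowerSeries.coeff_zero_eq_constantCoeff] at this

/-! ### symmetry -/

theorem rename_xS (σ : Equiv.Perm (Fin r)) (S : Finset (Fin r)) :
    MvPolynomial.rename σ (xS S) = xS (S.map σ.toEmbedding) := by
  unfold xS
  rw [map_prod, Finset.prod_map]
  simp

theorem map_V (σ : Equiv.Perm (Fin r)) (S : Finset (Fin r)) :
    PowerSeries.map (MvPolynomial.rename σ : (MvPolynomial (Fin r) ℤ) →ₐ[ℤ] (MvPolynomial (Fin r) ℤ)).toRingHom (V S) =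
      V (S.map σ.toEmbedding) := by
  unfold V
  rw [Finset.card_map]
  split_ifs with h
  · ext n : 1
    unfold geo
    rw [PowerSeries.coeff_map, PowerSeries.coeff_mk, PowerSeries.coeff_mk, map_pow]
    congr 1
    exact rename_xS σ S
  · unfold lin
    rw [map_sub, map_one, map_mul, PowerSeries.map_C, PowerSeries.map_X]
    congr 3
    exact rename_xS σ S

theorem H_symm (n : ℕ) : (PowerSeries.coeff n (H r)).IsSymmetric := by
  intro σ
  have h : PowerSeries.map (MvPolynomial.rename σ : (MvPolynomial (Fin r) ℤ) →ₐ[ℤ] (MvPolynomial (Fin r) ℤ)).toRingHom (H r) = H r := by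
    unfold H
    rw [map_prod, Finset.prod_congr rfl fun S _ => map_V σ S]
    exact Fintype.prod_equiv (Equiv.finsetCongr σ) _ _ fun S => rfl
  have h2 := congrArg (PowerSeries.coeff n) h
  rw [PowerSeries.coeff_map] at h2
  exact h2

theorem U_symm (n : ℕ) : (PowerSeries.coeff n (U r)).IsSymmetric := by
  rcases n with _ | n
  · intro σ
    rw [U_zero, map_one]
  · rw [coeff_U_succ]
    intro σ
    rw [map_sub, H_symm _ σ, H_symm _ σ]

/-! ### leading terms -/

/-- coefficient `n` in `𝔪 ^ n` -/
def Fil (A : PowerSeries (MvPolynomial (Fin r) ℤ)) : Prop := ∀ n, PowerSeries.coeff n A ∈ mm r ^ n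

/-- coefficient `n` in `𝔪 ^ (n + 1)` -/
def Small (A : PowerSeries (MvPolynomial (Fin r) ℤ)) : Prop := ∀ n, PowerSeries.coeff n A ∈ mm r ^ (n + 1)

theorem Fil.mul {A B : PowerSeries (MvPolynomial (Fin r) ℤ)} (hA : Fil A) (hB : Fil B) : Fil (A * B) := by
  intro n
  rw [PowerSeries.coeff_mul]
  refine Ideal.sum_mem _ fun ij hij => ?_
  rw [Finset.HasAntidiagonal.mem_antidiagonal] at hij
  rw [← hij, pow_add]
  exact Ideal.mul_mem_mul (hA _) (hB _)

theorem Fil.mul_small {A B : PowerSeries (MvPolynomial (Fin r) ℤ)} (hA : Fil A) (hB : Small B) : Small (A * B) := by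
  intro n
  rw [PowerSeries.coeff_mul]
  refine Ideal.sum_mem _ fun ij hij => ?_
  rw [Finset.HasAntidiagonal.mem_antidiagonal] at hij
  rw [← hij, add_assoc, pow_add]
  exact Ideal.mul_mem_mul (hA _) (hB _)

theorem Small.add {A B : PowerSeries (MvPolynomial (Fin r) ℤ)} (hA : Small A) (hB : Small B) : Small (A + B) := by
  intro n
  rw [map_add]
  exact Ideal.add_mem _ (hA n) (hB n)

theorem Fil.one : Fil (1 : PowerSeries (MvPolynomial (Fin r) ℤ)) := by
  intro n
  rw [PowerSeries.coeff_one]
  split_ifs with h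
  · rw [h]; simp
  · exact Ideal.zero_mem _

theorem Fil.prod {ι : Type*} (s : Finset ι) (A : ι → PowerSeries (MvPolynomial (Fin r) ℤ)) (h : ∀ i ∈ s, Fil (A i)) :
    Fil (∏ i ∈ s, A i) := by
  classical
  induction s using Finset.induction_on with
  | empty => simpa using Fil.one
  | insert i s hi ih =>
    rw [Finset.prod_insert hi]
    exact (h i (Finset.mem_insert_self i s)).mul (ih fun j hj => h j (Finset.mem_insert_of_mem hj))

theorem Small.prod {ι : Type*} (s : Finset ι) (A : ι → PowerSeries (MvPolynomial (Fin r) ℤ)) (h : ∀ i ∈ s, Fil (A i))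
    (h' : ∀ i ∈ s, Small (A i - 1)) : Small (∏ i ∈ s, A i - 1) := by
  classical
  induction s using Finset.induction_on with
  | empty => intro n; simp
  | insert i s hi ih =>
    rw [Finset.prod_insert hi]
    have e : A i * ∏ j ∈ s, A j - 1 = A i * (∏ j ∈ s, A j - 1) + (A i - 1) := by ring
    rw [e]
    exact ((h i (Finset.mem_insert_self i s)).mul_small
      (ih (fun j hj => h j (Finset.mem_insert_of_mem hj))
        fun j hj => h' j (Finset.mem_insert_of_mem hj))).add (h' i (Finset.mem_insert_self i s))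

theorem xS_mem (S : Finset (Fin r)) : xS S ∈ mm r ^ S.card := by
  unfold xS
  have h := (prod_cmp (mm r) S (fun i => (MvPolynomial.X i : MvPolynomial (Fin r) ℤ)) (fun i => MvPolynomial.X i)
    (fun _ => 1) fun i _ => ?_).1
  · simpa using h
  · have : (MvPolynomial.X i : MvPolynomial (Fin r) ℤ) ∈ mm r := Ideal.subset_span ⟨i, rfl⟩
    simp [this]

theorem V_fil {S : Finset (Fin r)} (hS : 1 ≤ S.card) : Fil (V S) := by
  have h1 : xS S ∈ mm r := by
    have := Ideal.pow_le_pow_right hS (xS_mem S)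
    simpa using this
  intro n
  unfold V
  split_ifs
  · unfold geo
    rw [PowerSeries.coeff_mk]
    exact Ideal.pow_mem_pow h1 n
  · unfold lin
    rw [map_sub, PowerSeries.coeff_one, PowerSeries.coeff_C_mul, PowerSeries.coeff_X]
    rcases n with _ | _ | n
    · simp
    · simpa using h1
    · simp

theorem V_small {S : Finset (Fin r)} (hS : 2 ≤ S.card) : Small (V S - 1) := by
  have h1 : xS S ∈ mm r ^ 2 := Ideal.pow_le_pow_right hS (xS_mem S)
  intro n
  rw [map_sub]
  rcases n with _ | n
  · rw [V_zero]; simp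
  · rw [PowerSeries.coeff_one, if_neg (Nat.succ_ne_zero n), sub_zero]
    unfold V
    split_ifs
    · unfold geo
      rw [PowerSeries.coeff_mk]
      have h2 := Ideal.pow_mem_pow h1 (n + 1)
      rw [← pow_mul] at h2
      exact Ideal.pow_le_pow_right (by omega) h2
    · unfold lin
      rw [map_sub, PowerSeries.coeff_one, PowerSeries.coeff_C_mul, PowerSeries.coeff_X]
      rcases n with _ | n
      · simpa using h1
      · simp

theorem coeff_lin_prod (n : ℕ) :
    PowerSeries.coeff n (∏ i : Fin r, lin (MvPolynomial.X i : MvPolynomial (Fin r) ℤ)) =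
      (-1) ^ n * MvPolynomial.esymm (Fin r) ℤ n := by
  have h2 := Finset.prod_one_add (f := fun i : Fin r =>
    -(PowerSeries.C (MvPolynomial.X i : MvPolynomial (Fin r) ℤ) * PowerSeries.X)) (s := univ)
  simp only [← sub_eq_add_neg, Finset.powerset_univ] at h2
  have h3 : ∏ i : Fin r, lin (MvPolynomial.X i : MvPolynomial (Fin r) ℤ) =
      ∏ i : Fin r, (1 - PowerSeries.C (MvPolynomial.X i : MvPolynomial (Fin r) ℤ) * PowerSeries.X) := rfl
  rw [h3, h2, map_sum, MvPolynomial.esymm, Finset.mul_sum, Finset.powersetCard_eq_filter,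
    Finset.powerset_univ, Finset.sum_filter]
  refine Finset.sum_congr rfl fun S _ => ?_
  have h4 : ∏ i ∈ S, -(PowerSeries.C (MvPolynomial.X i : MvPolynomial (Fin r) ℤ) * PowerSeries.X) =
      PowerSeries.C ((-1) ^ S.card * ∏ i ∈ S, (MvPolynomial.X i : MvPolynomial (Fin r) ℤ)) * PowerSeries.X ^ S.card := by
    rw [Finset.prod_neg, Finset.prod_mul_distrib, Finset.prod_const, map_mul, map_prod, map_pow,
      map_neg, map_one, mul_assoc]
  rw [h4, PowerSeries.coeff_C_mul, PowerSeries.coeff_X_pow]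
  by_cases h : S.card = n
  · rw [if_pos h.symm, if_pos h, h]; ring
  · rw [if_neg (fun h' => h h'.symm), if_neg h, mul_zero]

theorem U_leading (n : ℕ) : PowerSeries.coeff n (U r) -
    (-1) ^ n * MvPolynomial.esymm (Fin r) ℤ n ∈ mm r ^ (n + 1) := by
  classical
  set s1 := (univ : Finset (Finset (Fin r))).filter fun S => S.card = 1 with hs1
  set s2 := (univ : Finset (Finset (Fin r))).filter fun S => 2 ≤ S.card with hs2
  have hU : U r = (∏ S ∈ s1, V S) * ∏ S ∈ s2, V S := by
    unfold U
    rw [← Finset.prod_union]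
    · refine Finset.prod_congr ?_ fun _ _ => rfl
      ext S
      simp only [Finset.mem_erase, Finset.mem_univ, and_true, hs1, hs2, Finset.mem_union,
        Finset.mem_filter, true_and]
      have : S ≠ ∅ ↔ S.card ≠ 0 := by rw [Ne, Ne, Finset.card_eq_zero]
      rw [this]
      omega
    · rw [Finset.disjoint_left]
      intro S h1 h2
      rw [hs1, Finset.mem_filter] at h1
      rw [hs2, Finset.mem_filter] at h2
      omega
  have hlin : ∏ S ∈ s1, V S = ∏ i : Fin r, lin (MvPolynomial.X i : MvPolynomial (Fin r) ℤ) := by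
    symm
    refine Finset.prod_bij (fun i _ => {i}) ?_ ?_ ?_ ?_
    · intro i _; simp [hs1]
    · intro i _ j _ h; simpa using h
    · intro S hS
      rw [hs1, Finset.mem_filter, Finset.card_eq_one] at hS
      obtain ⟨_, i, hi⟩ := hS
      exact ⟨i, Finset.mem_univ _, hi.symm⟩
    · intro i _
      simp [V, xS]
  have h1 : Fil (∏ S ∈ s1, V S) := Fil.prod _ _ fun S hS => V_fil (by
    rw [hs1, Finset.mem_filter] at hS; omega)
  have h2 : Small (∏ S ∈ s2, V S - 1) := Small.prod _ _ (fun S hS => V_fil (by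
    rw [hs2, Finset.mem_filter] at hS; omega)) fun S hS => V_small (by
    rw [hs2, Finset.mem_filter] at hS; exact hS.2)
  have h3 := (h1.mul_small h2) n
  have e : (∏ S ∈ s1, V S) * (∏ S ∈ s2, V S - 1) = U r - ∏ i : Fin r, lin (MvPolynomial.X i : MvPolynomial (Fin r) ℤ) := by
    rw [hU, mul_sub, mul_one, hlin]
  rw [e, map_sub, coeff_lin_prod] at h3
  exact h3

end Pool.Agent.Helper28.SY
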