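import Pool.Agent.Helper28.SY.Defs
import Pool.Agent.Helper28.SY.Sym

/-!
# Symmetric powers of schemes with the point counts of abelian varieties
-/

set_option autoImplicit false

namespace Pool.Agent.Helper28.SY

open Finset AlgebraicGeometry

/-- For every prime `p > P` the scheme `X` has over the fields with `p ^ k` elements as many points as an
abelian variety of dimension `g` over the field with `p` elements, on the first cohomology of which
Frobenius has the eigenvalues `α p i`. -/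
structure AbelianCounts (g P : ℕ) (X : Scheme.{0}) (α : Nat.Primes → Fin (2 * g) → ℂ) : Prop where
  norm : ∀ p : Nat.Primes, P < (p : ℕ) → ∀ i, ‖α p i‖ = √((p : ℕ) : ℝ)
  conj : ∀ p : Nat.Primes, P < (p : ℕ) → ∃ e : Equiv.Perm (Fin (2 * g)), ∀ i,
    α p (e i) = starRingEnd ℂ (α p i)
  prod : ∀ p : Nat.Primes, P < (p : ℕ) → ∏ i, α p i = ((p : ℕ) : ℂ) ^ g
  count : ∀ p : Nat.Primes, P < (p : ℕ) → ∀ k : ℕ, 1 ≤ k → (points X p k : ℂ) = ∏ i, (1 - α p i ^ k)

section
variable {g P : ℕ} {X : Scheme.{0}} {α : Nat.Primes → Fin (2 * g) → ℂ}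

/-- `x_i = α_i ^ k / q` -/
noncomputable def xx (α : Nat.Primes → Fin (2 * g) → ℂ) (p : Nat.Primes) (k : ℕ) (i : Fin (2 * g)) : ℂ :=
  (((p : ℕ) : ℂ) ^ k)⁻¹ * α p i ^ k

theorem ev_sub (x : Fin (2 * g) → ℂ) (A B : MvPolynomial (Fin (2 * g)) ℤ) :
    MvPolynomial.aeval x (A - B) = MvPolynomial.aeval x A - MvPolynomial.aeval x B := map_sub _ _ _

theorem pc_ne (p : Nat.Primes) (k : ℕ) : (((p : ℕ) : ℂ) ^ k) ≠ 0 := by
  have : ((p : ℕ) : ℂ) ≠ 0 := by exact_mod_cast p.2.ne_zero
  positivity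

theorem AbelianCounts.ne (h : AbelianCounts g P X α) {p : Nat.Primes} (hp : P < (p : ℕ)) {k : ℕ}
    (hk : 1 ≤ k) : points X p k ≠ 0 := by
  intro h0
  have h1 := h.count p hp k hk
  rw [h0, Nat.cast_zero] at h1
  obtain ⟨i, _, hi⟩ := Finset.prod_eq_zero_iff.1 h1.symm
  have h2 : ‖α p i ^ k‖ = 1 := by rw [← sub_eq_zero.1 hi, norm_one]
  rw [norm_pow, h.norm p hp i] at h2
  have h3 : 1 < √((p : ℕ) : ℝ) := by
    rw [Real.lt_sqrt (by norm_num)]
    have : 1 < (p : ℕ) := p.2.one_lt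
    norm_num
    exact_mod_cast this
  have h4 := one_lt_pow₀ h3 (by omega : k ≠ 0)
  linarith

/-- the numbers of points in terms of the `x_i` -/
theorem AbelianCounts.count' (h : AbelianCounts g P X α) {p : Nat.Primes} (hp : P < (p : ℕ)) {k m : ℕ}
    (hk : 1 ≤ k) (hm : 1 ≤ m) : (points X p (k * m) : ℂ) =
      ((((p : ℕ) : ℂ) ^ k) ^ g) ^ m * ∏ i, (1 - xx α p k i ^ m) := by
  obtain ⟨e, he⟩ := h.conj p hp
  have hp0 : ((p : ℕ) : ℂ) ≠ 0 := by exact_mod_cast p.2.ne_zero
  have ha0 : ∀ i, α p i ≠ 0 := by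
    intro i h0
    have := h.norm p hp i
    rw [h0, norm_zero] at this
    have h3 : 0 < √((p : ℕ) : ℝ) := Real.sqrt_pos.2 (by exact_mod_cast p.2.pos)
    linarith
  have hcc : ∀ i, α p i * α p (e i) = ((p : ℕ) : ℂ) := by
    intro i
    rw [he i, Complex.mul_conj, Complex.normSq_eq_norm_sq, h.norm p hp i,
      Real.sq_sqrt (Nat.cast_nonneg _)]
    simp
  rw [h.count p hp (k * m) (Nat.mul_pos hk hm)]
  have h1 : ∏ i, (1 - xx α p k i ^ m) = ∏ i, (1 - xx α p k (e i) ^ m) :=
    (Equiv.prod_comp e (fun i => 1 - xx α p k i ^ m)).symm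
  rw [h1]
  have h2 : ∀ i, 1 - α p i ^ (k * m) = -(α p i ^ (k * m)) * (1 - xx α p k (e i) ^ m) := by
    intro i
    unfold xx
    have h3 : α p (e i) = ((p : ℕ) : ℂ) / α p i := by
      rw [eq_div_iff (ha0 i), mul_comm]; exact hcc i
    rw [h3, pow_mul]
    have h4 : (((p : ℕ) : ℂ) ^ k)⁻¹ * (((p : ℕ) : ℂ) / α p i) ^ k = (α p i ^ k)⁻¹ := by
      rw [div_pow]
      have := ha0 i
      field_simp
    rw [h4, inv_pow]
    have h5 : (α p i ^ k) ^ m ≠ 0 := pow_ne_zero _ (pow_ne_zero _ (ha0 i))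
    field_simp
    ring
  rw [Finset.prod_congr rfl fun i _ => h2 i, Finset.prod_mul_distrib]
  congr 1
  rw [Finset.prod_neg, Finset.card_univ, Fintype.card_fin, Finset.prod_pow, h.prod p hp]
  rw [pow_mul (-1 : ℂ) 2 g]
  norm_num
  rw [← pow_mul, ← pow_mul, ← pow_mul]
  congr 1
  ring

theorem norm_xx (h : AbelianCounts g P X α) {p : Nat.Primes} (hp : P < (p : ℕ)) (k : ℕ)
    (i : Fin (2 * g)) : ‖xx α p k i‖ = ((√((p : ℕ) : ℝ)) ^ k)⁻¹ := by
  unfold xx
  rw [norm_mul, norm_inv, norm_pow, norm_pow, h.norm p hp i, Complex.norm_natCast]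
  have h3 : 0 < √((p : ℕ) : ℝ) := Real.sqrt_pos.2 (by exact_mod_cast p.2.pos)
  have h4 : ((p : ℕ) : ℝ) = √((p : ℕ) : ℝ) ^ 2 := (Real.sq_sqrt (Nat.cast_nonneg _)).symm
  set t := √((p : ℕ) : ℝ)
  rw [h4]
  field_simp
  rw [← pow_mul, ← pow_mul, mul_comm]

/-- the numbers of points of the symmetric powers in terms of the `x_i` -/
theorem sym_count (h : AbelianCounts g P X α) {p : Nat.Primes} (hp : P < (p : ℕ)) {k : ℕ}
    (hk : 1 ≤ k) (n : ℕ) : (symPoints X n p k : ℂ) =
      ((((p : ℕ) : ℂ) ^ k) ^ g) ^ n * MvPolynomial.aeval (xx α p k) (PowerSeries.coeff n (H (2 * g))) := by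
  induction n using Nat.strong_induction_on with
  | _ n ih =>
    rcases Nat.eq_zero_or_pos n with hn | hn
    · subst hn
      rw [symPoints_zero, H_zero]
      simp
    · have h1 := symPoints_rec X p (k := k) (by omega)
        (fun m hm => h.ne hp (Nat.mul_pos hk hm)) n
      have h2 := congrArg (MvPolynomial.aeval (xx α p k)) (H_rec (r := 2 * g) n)
      rw [map_mul, map_natCast, map_sum] at h2
      have hn0 : (n : ℂ) ≠ 0 := by exact_mod_cast hn.ne'
      apply mul_left_cancel₀ hn0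
      have h3 : (n : ℂ) * (symPoints X n p k : ℂ) =
          ∑ m ∈ Finset.Icc 1 n, (points X p (k * m) : ℂ) * (symPoints X (n - m) p k : ℂ) := by
        exact_mod_cast h1
      rw [h3, mul_left_comm, h2]
      rw [← Finset.Nat.sum_antidiagonal_swap]
      rw [Finset.Nat.sum_antidiagonal_eq_sum_range_succ_mk, Finset.sum_range_succ', mul_add]
      have h4 : Finset.Icc 1 n = (Finset.range n).image (fun m => m + 1) := by
        ext m
        rw [Finset.mem_Icc, Finset.mem_image]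
        constructor
        · intro hm
          exact ⟨m - 1, by rw [Finset.mem_range]; omega, by omega⟩
        · rintro ⟨t, ht, rfl⟩
          rw [Finset.mem_range] at ht
          omega
      rw [h4, Finset.sum_image (fun a _ b _ hab => by simpa using hab)]
      have h5 : MvPolynomial.aeval (xx α p k) (PowerSeries.coeff (Prod.swap (0, n - 0)).1 (H (2 * g)) *
          (if (Prod.swap (0, n - 0)).2 = 0 then 0 else
            ∏ i, (1 - MvPolynomial.X i ^ (Prod.swap (0, n - 0)).2))) = 0 := by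
        simp
      rw [h5, mul_zero, add_zero, Finset.mul_sum]
      refine Finset.sum_congr rfl fun m hm => ?_
      rw [Finset.mem_range] at hm
      rw [h.count' hp hk (by omega : 1 ≤ m + 1), ih (n - (m + 1)) (by omega)]
      simp only [Prod.swap, Nat.succ_ne_zero, if_false, map_mul, map_prod, map_sub, map_one, map_pow,
        MvPolynomial.aeval_X]
      have h6 : ((((p : ℕ) : ℂ) ^ k) ^ g) ^ n =
          ((((p : ℕ) : ℂ) ^ k) ^ g) ^ (m + 1) * ((((p : ℕ) : ℂ) ^ k) ^ g) ^ (n - (m + 1)) := by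
        rw [← pow_add]
        congr 1
        omega
      rw [h6]
      ring

/-! ### symmetric polynomials of the eigenvalues -/

theorem decomp {r : ℕ} {Φ : MvPolynomial (Fin r) ℤ} (h : Φ.IsSymmetric) :
    ∃ (s : Finset (Fin r →₀ ℕ)) (t : (Fin r →₀ ℕ) → MvPolynomial (Fin r) ℤ), Φ = ∑ m ∈ s, t m ∧
      ∀ m, (t m).IsSymmetric ∧ (t m).IsHomogeneous (wt m) := by
  obtain ⟨Q, hQ⟩ := exists_esymm h
  refine ⟨Q.support, fun m => MvPolynomial.aeval
    (fun i : Fin r => MvPolynomial.esymm (Fin r) ℤ ((i : ℕ) + 1))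
    (MvPolynomial.monomial m (Q.coeff m)), ?_, fun m => ⟨?_, mono_hom m _⟩⟩
  · rw [← map_sum, MvPolynomial.support_sum_monomial_coeff, hQ]
  · intro σ
    rw [MvPolynomial.comp_aeval_apply]
    congr 2
    funext j
    exact MvPolynomial.esymm_isSymmetric _ _ _ σ

theorem ev_scale {r : ℕ} {Φ : MvPolynomial (Fin r) ℤ} {d : ℕ} (h : Φ.IsHomogeneous d) (c : ℂ)
    (y : Fin r → ℂ) : MvPolynomial.aeval (fun i => c * y i) Φ = c ^ d * MvPolynomial.aeval y Φ := by
  have e : ∀ y : Fin r → ℂ, MvPolynomial.aeval y Φ =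
      ∑ m ∈ Φ.support, MvPolynomial.aeval y (MvPolynomial.monomial m (Φ.coeff m)) := by
    intro y
    rw [← map_sum, MvPolynomial.support_sum_monomial_coeff]
  rw [e, e, Finset.mul_sum]
  refine Finset.sum_congr rfl fun m hm => ?_
  rw [aeval_mono, aeval_mono]
  simp only [mul_pow]
  rw [Finset.prod_mul_distrib, Finset.prod_pow_eq_pow_sum]
  have h1 : ∑ i, m i = d := by
    have := h.degree_eq_sum_deg_support hm
    rw [this, ← Finsupp.degree_eq_sum]
    rfl
  rw [h1]
  ring

theorem evx_scale {Φ : MvPolynomial (Fin (2 * g)) ℤ} {d : ℕ} (h : Φ.IsHomogeneous d) (p : Nat.Primes)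
    (k : ℕ) : MvPolynomial.aeval (xx α p k) Φ =
      ((((p : ℕ) : ℂ) ^ k) ^ (-(d : ℤ))) * MvPolynomial.aeval (fun i => α p i ^ k) Φ := by
  have h1 := ev_scale h (((p : ℕ) : ℂ) ^ k)⁻¹ (fun i => α p i ^ k)
  have h2 : (fun i => (((p : ℕ) : ℂ) ^ k)⁻¹ * α p i ^ k) = xx α p k := rfl
  rw [h2] at h1
  rw [h1, zpow_neg, zpow_natCast, inv_pow]

theorem ev_scale' {Φ : MvPolynomial (Fin (2 * g)) ℤ} {d : ℕ} (h : Φ.IsHomogeneous d) (p : Nat.Primes)
    (k : ℕ) : MvPolynomial.aeval (fun i => α p i ^ k) Φ =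
      ((((p : ℕ) : ℂ) ^ k) ^ ((d : ℤ))) * MvPolynomial.aeval (xx α p k) Φ := by
  rw [evx_scale h, ← mul_assoc, ← zpow_add₀ (pc_ne p k)]
  simp

theorem all_evx (h : ∀ Φ : MvPolynomial (Fin (2 * g)) ℤ, Φ.IsSymmetric →
      Continues P (fun p k => MvPolynomial.aeval (fun i => α p i ^ k) Φ))
    {Φ : MvPolynomial (Fin (2 * g)) ℤ} (hΦ : Φ.IsSymmetric) :
    Continues P (fun p k => MvPolynomial.aeval (xx α p k) Φ) := by
  obtain ⟨s, t, h1, h2⟩ := decomp hΦ
  refine (Continues.sum s (f := fun m p k => ((((p : ℕ) : ℂ) ^ k) ^ (-(wt m : ℤ))) *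
    MvPolynomial.aeval (fun i => α p i ^ k) (t m)) fun m _ => ?_).congr fun p k _ _ => ?_
  · exact (h (t m) (h2 m).1).shift _
  · rw [h1, map_sum]
    refine Finset.sum_congr rfl fun m _ => ?_
    rw [evx_scale (h2 m).2]

theorem all_ev (h : ∀ Φ : MvPolynomial (Fin (2 * g)) ℤ, Φ.IsSymmetric →
      Continues P (fun p k => MvPolynomial.aeval (xx α p k) Φ))
    {Φ : MvPolynomial (Fin (2 * g)) ℤ} (hΦ : Φ.IsSymmetric) :
    Continues P (fun p k => MvPolynomial.aeval (fun i => α p i ^ k) Φ) := by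
  obtain ⟨s, t, h1, h2⟩ := decomp hΦ
  refine (Continues.sum s (f := fun m p k => ((((p : ℕ) : ℂ) ^ k) ^ ((wt m : ℤ))) *
    MvPolynomial.aeval (xx α p k) (t m)) fun m _ => ?_).congr fun p k _ _ => ?_
  · exact (h (t m) (h2 m).1).shift _
  · rw [h1, map_sum]
    refine Finset.sum_congr rfl fun m _ => ?_
    rw [ev_scale' (h2 m).2]

/-- an induction over the polynomials in functions `z i` -/
theorem good_induction {r : ℕ} (z : Fin r → Nat.Primes → ℕ → ℂ) (Good : (Nat.Primes → ℕ → ℂ) → Prop)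
    (hadd : ∀ f g, Good f → Good g → Good (fun p k => f p k + g p k))
    (hint : ∀ (a : ℤ) f, Good f → Good (fun p k => (a : ℂ) * f p k))
    (hone : Good (fun _ _ => 1)) (hmul : ∀ f i, Good f → Good (fun p k => f p k * z i p k))
    (G : MvPolynomial (Fin r) ℤ) : Good (fun p k => MvPolynomial.aeval (fun i => z i p k) G) := by
  induction G using MvPolynomial.induction_on with
  | C a =>
    have := hint a _ hone
    simpa using this
  | add A B hA hB =>
    have := hadd _ _ hA hB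
    simpa using this
  | mul_X A i hA =>
    have := hmul _ i hA
    simpa using this

/-- tensor products of exterior powers give everything -/
theorem all_of_tensors (h : ∀ l : List ℕ, Continues P (fun p k =>
      (l.map fun n => MvPolynomial.aeval (fun i => α p i ^ k)
        (MvPolynomial.esymm (Fin (2 * g)) ℤ n)).prod))
    {Φ : MvPolynomial (Fin (2 * g)) ℤ} (hΦ : Φ.IsSymmetric) :
    Continues P (fun p k => MvPolynomial.aeval (fun i => α p i ^ k) Φ) := by
  obtain ⟨Q, hQ⟩ := exists_esymm hΦ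
  set z : Fin (2 * g) → Nat.Primes → ℕ → ℂ := fun j p k => MvPolynomial.aeval (fun i => α p i ^ k)
    (MvPolynomial.esymm (Fin (2 * g)) ℤ ((j : ℕ) + 1)) with hz
  have h1 := good_induction z (fun f => ∀ l : List ℕ, Continues P (fun p k => f p k *
      (l.map fun n => MvPolynomial.aeval (fun i => α p i ^ k)
        (MvPolynomial.esymm (Fin (2 * g)) ℤ n)).prod)) ?_ ?_ ?_ ?_ Q []
  · refine h1.congr fun p k _ _ => ?_
    rw [List.map_nil, List.prod_nil, mul_one, ← hQ, MvPolynomial.comp_aeval_apply]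
  · intro f f' hf hf' l
    exact ((hf l).add (hf' l)).congr fun p k _ _ => by ring
  · intro a f hf l
    exact ((hf l).int_mul a).congr fun p k _ _ => by ring
  · intro l
    exact (h l).congr fun p k _ _ => by ring
  · intro f i hf l
    refine (hf (((i : ℕ) + 1) :: l)).congr fun p k _ _ => ?_
    rw [List.map_cons, List.prod_cons, hz]
    ring

theorem z_value (hX : AbelianCounts g P X α) {p : Nat.Primes} (hp : P < (p : ℕ)) {k : ℕ}
    (hk : 1 ≤ k) (n : ℕ) :
    MvPolynomial.aeval (xx α p k) (PowerSeries.coeff (n + 1) (U (2 * g))) =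
      ((((p : ℕ) : ℂ) ^ k) ^ (-((g * (n + 1) : ℕ) : ℤ))) * (symPoints X (n + 1) p k : ℂ) -
        ((((p : ℕ) : ℂ) ^ k) ^ (-((g * n : ℕ) : ℤ))) * (symPoints X n p k : ℂ) := by
  rw [coeff_U_succ, ev_sub, sym_count hX hp hk, sym_count hX hp hk, zpow_neg, zpow_neg,
    zpow_natCast, zpow_natCast, pow_mul, pow_mul, ← mul_assoc, ← mul_assoc,
    inv_mul_cancel₀ (pow_ne_zero _ (pow_ne_zero _ (pc_ne p k))),
    inv_mul_cancel₀ (pow_ne_zero _ (pow_ne_zero _ (pc_ne p k))), one_mul, one_mul]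

/-! ### the functional equation -/

theorem aeval_esymm (x : Fin (2 * g) → ℂ) (n : ℕ) :
    MvPolynomial.aeval x (MvPolynomial.esymm (Fin (2 * g)) ℤ n) =
      ∑ s ∈ powersetCard n univ, ∏ i ∈ s, x i := by
  simp [MvPolynomial.esymm]

theorem prod_xx (hX : AbelianCounts g P X α) {p : Nat.Primes} (hp : P < (p : ℕ)) (k : ℕ) :
    ∏ i, xx α p k i = ((((p : ℕ) : ℂ) ^ k)⁻¹) ^ g := by
  unfold xx
  rw [Finset.prod_mul_distrib, Finset.prod_const, Finset.card_univ, Fintype.card_fin,
    Finset.prod_pow, hX.prod p hp]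
  have hq := pc_ne p k
  have e1 : (((p : ℕ) : ℂ) ^ g) ^ k = (((p : ℕ) : ℂ) ^ k) ^ g := by
    rw [← pow_mul, ← pow_mul, mul_comm]
  rw [e1, two_mul, pow_add, mul_assoc, ← mul_pow, inv_mul_cancel₀ hq, one_pow, mul_one]

theorem xx_ne (hX : AbelianCounts g P X α) {p : Nat.Primes} (hp : P < (p : ℕ)) (k : ℕ)
    (i : Fin (2 * g)) : xx α p k i ≠ 0 := by
  intro h0
  have h1 := norm_xx hX hp k i
  rw [h0, norm_zero] at h1
  have h3 : 0 < √((p : ℕ) : ℝ) := Real.sqrt_pos.2 (by exact_mod_cast p.2.pos)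
  have : 0 < ((√((p : ℕ) : ℝ)) ^ k)⁻¹ := by positivity
  linarith

theorem xx_conj (hX : AbelianCounts g P X α) {p : Nat.Primes} (hp : P < (p : ℕ)) (k : ℕ) :
    ∃ e : Equiv.Perm (Fin (2 * g)), ∀ i, xx α p k i * xx α p k (e i) = (((p : ℕ) : ℂ) ^ k)⁻¹ := by
  obtain ⟨e, he⟩ := hX.conj p hp
  refine ⟨e, fun i => ?_⟩
  have hcc : α p i * α p (e i) = ((p : ℕ) : ℂ) := by
    rw [he i, Complex.mul_conj, Complex.normSq_eq_norm_sq, hX.norm p hp i,
      Real.sq_sqrt (Nat.cast_nonneg _)]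
    simp
  unfold xx
  have hq := pc_ne p k
  have h1 : (((p : ℕ) : ℂ) ^ k)⁻¹ * α p i ^ k * ((((p : ℕ) : ℂ) ^ k)⁻¹ * α p (e i) ^ k) =
      (((p : ℕ) : ℂ) ^ k)⁻¹ * (((p : ℕ) : ℂ) ^ k)⁻¹ * (α p i * α p (e i)) ^ k := by
    rw [mul_pow]; ring
  rw [h1, hcc, mul_assoc, inv_mul_cancel₀ hq, mul_one]

theorem fun_eq (hX : AbelianCounts g P X α) {p : Nat.Primes} (hp : P < (p : ℕ)) (k : ℕ) {n : ℕ}
    (hn : g ≤ n) (hn2 : n ≤ 2 * g) :
    MvPolynomial.aeval (xx α p k) (MvPolynomial.esymm (Fin (2 * g)) ℤ n) =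
      ((((p : ℕ) : ℂ) ^ k)⁻¹) ^ (n - g) *
        MvPolynomial.aeval (xx α p k) (MvPolynomial.esymm (Fin (2 * g)) ℤ (2 * g - n)) := by
  classical
  obtain ⟨e, he⟩ := xx_conj hX hp k
  rw [aeval_esymm, aeval_esymm]
  set t : ℂ := (((p : ℕ) : ℂ) ^ k)⁻¹ with ht
  have ht0 : t ≠ 0 := inv_ne_zero (pc_ne p k)
  have h1 : ∑ s ∈ powersetCard n (univ : Finset (Fin (2 * g))), ∏ i ∈ s, xx α p k i =
      ∑ s ∈ powersetCard (2 * g - n) (univ : Finset (Fin (2 * g))), ∏ i ∈ sᶜ, xx α p k i := by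
    refine Finset.sum_nbij' (fun s => sᶜ) (fun s => sᶜ) ?_ ?_ ?_ ?_ ?_
    · intro s hs
      rw [Finset.mem_powersetCard] at hs ⊢
      exact ⟨Finset.subset_univ _, by rw [Finset.card_compl, Fintype.card_fin, hs.2]⟩
    · intro s hs
      rw [Finset.mem_powersetCard] at hs ⊢
      exact ⟨Finset.subset_univ _, by rw [Finset.card_compl, Fintype.card_fin, hs.2]; omega⟩
    · intro s _; exact compl_compl s
    · intro s _; exact compl_compl s
    · intro s _; rw [compl_compl]
  have h2 : ∑ s ∈ powersetCard (2 * g - n) (univ : Finset (Fin (2 * g))), ∏ i ∈ s, xx α p k i =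
      ∑ s ∈ powersetCard (2 * g - n) (univ : Finset (Fin (2 * g))), ∏ i ∈ s, xx α p k (e i) := by
    symm
    refine Finset.sum_nbij' (fun s => s.map e.toEmbedding) (fun s => s.map e.symm.toEmbedding)
      ?_ ?_ ?_ ?_ ?_
    · intro s hs
      rw [Finset.mem_powersetCard] at hs ⊢
      exact ⟨Finset.subset_univ _, by rw [Finset.card_map, hs.2]⟩
    · intro s hs
      rw [Finset.mem_powersetCard] at hs ⊢
      exact ⟨Finset.subset_univ _, by rw [Finset.card_map, hs.2]⟩
    · intro s _; ext i; simp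
    · intro s _; ext i; simp
    · intro s _; rw [Finset.prod_map]; rfl
  rw [h1, h2, Finset.mul_sum]
  refine Finset.sum_congr rfl fun s hs => ?_
  rw [Finset.mem_powersetCard] at hs
  have h3 : (∏ i ∈ s, xx α p k i) * ∏ i ∈ sᶜ, xx α p k i = t ^ g := by
    rw [Finset.prod_mul_prod_compl, prod_xx hX hp k]
  have h4 : (∏ i ∈ s, xx α p k i) * ∏ i ∈ s, xx α p k (e i) = t ^ (2 * g - n) := by
    rw [← Finset.prod_mul_distrib, Finset.prod_congr rfl fun i _ => he i, Finset.prod_const, hs.2]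
  have h5 : (∏ i ∈ s, xx α p k i) ≠ 0 := Finset.prod_ne_zero_iff.2 fun i _ => xx_ne hX hp k i
  apply mul_left_cancel₀ h5
  rw [h3, mul_left_comm, h4, ← pow_add]
  congr 1
  omega

/-! ### approximation -/

/-- continuation of the products with the symmetric powers -/
def Good (P g : ℕ) (X : Scheme.{0}) (f : Nat.Primes → ℕ → ℂ) : Prop :=
  ∀ l : List ℕ, (∀ n ∈ l, n ≤ g) →
    Continues P (fun p k => f p k * (l.map fun n => (symPoints X n p k : ℂ)).prod)

theorem Good.add {f f' : Nat.Primes → ℕ → ℂ} (h : Good P g X f) (h' : Good P g X f') :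
    Good P g X (fun p k => f p k + f' p k) := fun l hl =>
  ((h l hl).add (h' l hl)).congr fun p k _ _ => by ring

theorem Good.int_mul {f : Nat.Primes → ℕ → ℂ} (h : Good P g X f) (a : ℤ) :
    Good P g X (fun p k => (a : ℂ) * f p k) := fun l hl =>
  ((h l hl).int_mul a).congr fun p k _ _ => by ring

theorem Good.shift {f : Nat.Primes → ℕ → ℂ} (h : Good P g X f) (m : ℤ) :
    Good P g X (fun p k => ((((p : ℕ) : ℂ) ^ k) ^ m) * f p k) := fun l hl =>
  ((h l hl).shift m).congr fun p k _ _ => by ring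

theorem Good.congr {f f' : Nat.Primes → ℕ → ℂ} (h : Good P g X f)
    (he : ∀ (p : Nat.Primes) (k : ℕ), P < (p : ℕ) → 1 ≤ k → f p k = f' p k) : Good P g X f' :=
  fun l hl => (h l hl).congr fun p k hp hk => by rw [he p k hp hk]

theorem Good.mul_sym {f : Nat.Primes → ℕ → ℂ} (h : Good P g X f) {n : ℕ} (hn : n ≤ g) :
    Good P g X (fun p k => f p k * (symPoints X n p k : ℂ)) := fun l hl =>
  (h (n :: l) (by
    intro m hm
    rcases List.mem_cons.1 hm with rfl | hm
    · exact hn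
    · exact hl m hm)).congr fun p k _ _ => by rw [List.map_cons, List.prod_cons]; ring

theorem Good.mul_U (hX : AbelianCounts g P X α) {f : Nat.Primes → ℕ → ℂ} (h : Good P g X f) {n : ℕ}
    (hn : n ≤ g) : Good P g X (fun p k => f p k *
      MvPolynomial.aeval (xx α p k) ((-1) ^ n * PowerSeries.coeff n (U (2 * g)))) := by
  rcases n with _ | n
  · refine h.congr fun p k _ _ => ?_
    rw [U_zero]
    simp
  · refine ((((h.mul_sym hn).shift (-((g * (n + 1) : ℕ) : ℤ))).add
      (((h.mul_sym (n := n) (by omega)).shift (-((g * n : ℕ) : ℤ))).int_mul (-1))).int_mul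
        ((-1) ^ (n + 1))).congr fun p k hp hk => ?_
    rw [map_mul, z_value hX hp hk]
    simp only [map_pow, map_neg, map_one]
    push_cast
    ring

theorem Good.mul_pow_U (hX : AbelianCounts g P X α) {f : Nat.Primes → ℕ → ℂ} (h : Good P g X f)
    {n : ℕ} (hn : n ≤ g) (a : ℕ) : Good P g X (fun p k => f p k *
      MvPolynomial.aeval (xx α p k) ((-1) ^ n * PowerSeries.coeff n (U (2 * g))) ^ a) := by
  induction a with
  | zero => exact h.congr fun p k _ _ => by rw [pow_zero, mul_one]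
  | succ a ih => exact (ih.mul_U hX hn).congr fun p k _ _ => by rw [pow_succ]; ring

theorem Good.prod_U (hX : AbelianCounts g P X α) (h : Good P g X (fun _ _ => 1)) {ι : Type}
    (s : Finset ι) (n : ι → ℕ) (hn : ∀ i, n i ≤ g) (a : ι → ℕ) : Good P g X (fun p k =>
      ∏ i ∈ s, MvPolynomial.aeval (xx α p k)
        ((-1) ^ (n i) * PowerSeries.coeff (n i) (U (2 * g))) ^ (a i)) := by
  classical
  induction s using Finset.induction_on with
  | empty => simpa using h
  | insert i s hi ih =>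
    exact (ih.mul_pow_U hX (hn i) (a i)).congr fun p k _ _ => by
      rw [Finset.prod_insert hi, mul_comm]

/-- `ρ = q ^ (-1/2)` -/
noncomputable def rho (p : Nat.Primes) (k : ℕ) : ℝ := ((√((p : ℕ) : ℝ)) ^ k)⁻¹

theorem rho_pos (p : Nat.Primes) (k : ℕ) : 0 < rho p k := by
  have h3 : 0 < √((p : ℕ) : ℝ) := Real.sqrt_pos.2 (by exact_mod_cast p.2.pos)
  unfold rho
  positivity

theorem rho_le (p : Nat.Primes) (k : ℕ) : rho p k ≤ 1 := by
  have hp1 : (1 : ℝ) ≤ (p : ℕ) := by exact_mod_cast p.2.one_lt.le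
  exact inv_le_one_of_one_le₀ (one_le_pow₀ (Real.one_le_sqrt.2 hp1))

theorem rho_sq (p : Nat.Primes) (k : ℕ) : rho p k ^ 2 = (((p : ℕ) : ℝ) ^ k)⁻¹ := by
  unfold rho
  rw [inv_pow, ← pow_mul, mul_comm, pow_mul, Real.sq_sqrt (Nat.cast_nonneg _)]

/-- approximation by good functions -/
def Appr (P g : ℕ) (X : Scheme.{0}) (h : Nat.Primes → ℕ → ℂ) (K : ℕ) : Prop :=
  ∃ F, Good P g X F ∧ ∃ C : ℝ, 0 ≤ C ∧ ∀ (p : Nat.Primes) (k : ℕ), P < (p : ℕ) → 1 ≤ k →
    ‖h p k - F p k‖ ≤ C * rho p k ^ K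

theorem Good.appr {f : Nat.Primes → ℕ → ℂ} (h : Good P g X f) (K : ℕ) : Appr P g X f K :=
  ⟨f, h, 0, le_rfl, fun p k _ _ => by simp⟩

theorem Appr.add {f f' : Nat.Primes → ℕ → ℂ} {K : ℕ} (h : Appr P g X f K) (h' : Appr P g X f' K) :
    Appr P g X (fun p k => f p k + f' p k) K := by
  obtain ⟨F, hF, C, hC, hb⟩ := h
  obtain ⟨F', hF', C', hC', hb'⟩ := h'
  refine ⟨_, hF.add hF', C + C', by positivity, fun p k hp hk => ?_⟩
  have e : f p k + f' p k - (F p k + F' p k) = (f p k - F p k) + (f' p k - F' p k) := by ring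
  rw [e, add_mul]
  exact (norm_add_le _ _).trans (add_le_add (hb p k hp hk) (hb' p k hp hk))

theorem Appr.int_mul {f : Nat.Primes → ℕ → ℂ} {K : ℕ} (h : Appr P g X f K) (a : ℤ) :
    Appr P g X (fun p k => (a : ℂ) * f p k) K := by
  obtain ⟨F, hF, C, hC, hb⟩ := h
  refine ⟨_, hF.int_mul a, ‖(a : ℂ)‖ * C, by positivity, fun p k hp hk => ?_⟩
  rw [← mul_sub, norm_mul, mul_assoc]
  exact mul_le_mul_of_nonneg_left (hb p k hp hk) (norm_nonneg _)

theorem Appr.shift {f : Nat.Primes → ℕ → ℂ} {K : ℕ} (h : Appr P g X f K) (a : ℕ) :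
    Appr P g X (fun p k => ((((p : ℕ) : ℂ) ^ k)⁻¹) ^ a * f p k) (K + 2 * a) := by
  obtain ⟨F, hF, C, hC, hb⟩ := h
  refine ⟨fun p k => ((((p : ℕ) : ℂ) ^ k)⁻¹) ^ a * F p k,
    (hF.shift (-(a : ℤ))).congr fun p k _ _ => by rw [zpow_neg, zpow_natCast, inv_pow],
    C, hC, fun p k hp hk => ?_⟩
  rw [← mul_sub, norm_mul, norm_pow, norm_inv, norm_pow, Complex.norm_natCast, ← rho_sq, ← pow_mul,
    pow_add, ← mul_assoc, mul_comm]
  exact mul_le_mul_of_nonneg_right (hb p k hp hk) (pow_nonneg (rho_pos p k).le _)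

theorem Appr.congr {f f' : Nat.Primes → ℕ → ℂ} {K : ℕ} (h : Appr P g X f K)
    (he : ∀ (p : Nat.Primes) (k : ℕ), P < (p : ℕ) → 1 ≤ k → f p k = f' p k) : Appr P g X f' K := by
  obtain ⟨F, hF, C, hC, hb⟩ := h
  exact ⟨F, hF, C, hC, fun p k hp hk => by rw [← he p k hp hk]; exact hb p k hp hk⟩

theorem Appr.sum {ι : Type} (s : Finset ι) {f : ι → Nat.Primes → ℕ → ℂ} {K : ℕ}
    (h0 : Good P g X (fun _ _ => 0)) (h : ∀ i ∈ s, Appr P g X (f i) K) :
    Appr P g X (fun p k => ∑ i ∈ s, f i p k) K := by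
  classical
  induction s using Finset.induction_on with
  | empty => simpa using h0.appr K
  | insert i s hi ih =>
    exact ((h i (Finset.mem_insert_self i s)).add
      (ih fun j hj => h j (Finset.mem_insert_of_mem hj))).congr fun p k _ _ => by
        rw [Finset.sum_insert hi]

/-- the approximation of symmetric polynomials in the `x_i` -/
theorem appr_all (hX : AbelianCounts g P X α) (h1 : Good P g X (fun _ _ => 1)) (δ : ℕ) :
    ∀ (d : ℕ) (Ψ : MvPolynomial (Fin (2 * g)) ℤ), Ψ.IsSymmetric → Ψ ∈ mm (2 * g) ^ d →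
      Appr P g X (fun p k => MvPolynomial.aeval (xx α p k) Ψ) (d + δ) := by
  have h0 : Good P g X (fun _ _ => 0) := (h1.int_mul 0).congr fun p k _ _ => by simp
  induction δ with
  | zero =>
    intro d Ψ _ hd
    obtain ⟨C, hC, hb⟩ := small hd
    refine ⟨fun _ _ => 0, h0, C, hC, fun p k hp hk => ?_⟩
    rw [sub_zero]
    exact hb (rho p k) (xx α p k) (rho_pos p k).le (rho_le p k) fun i => (norm_xx hX hp k i).le
  | succ δ ih =>
    intro d Ψ hΨ hd
    obtain ⟨T, c, hT, hlead⟩ := leading hΨ hd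
    set t : (Fin (2 * g) →₀ ℕ) → MvPolynomial (Fin (2 * g)) ℤ := fun m =>
      MvPolynomial.aeval (fun i : Fin (2 * g) => MvPolynomial.esymm (Fin (2 * g)) ℤ ((i : ℕ) + 1))
        (MvPolynomial.monomial m (c m)) with ht
    have htsym : ∀ m, (t m).IsSymmetric := by
      intro m σ
      rw [ht]
      simp only []
      rw [MvPolynomial.comp_aeval_apply]
      congr 2
      funext j
      exact MvPolynomial.esymm_isSymmetric _ _ _ σ
    have hrest : (Ψ - ∑ m ∈ T, t m).IsSymmetric := by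
      intro σ
      rw [map_sub, hΨ σ, map_sum]
      congr 1
      exact Finset.sum_congr rfl fun m _ => htsym m σ
    have hA := ih (d + 1) _ hrest hlead
    have hB : ∀ m ∈ T, Appr P g X (fun p k => MvPolynomial.aeval (xx α p k) (t m)) (d + 1 + δ) := by
      intro m hm
      have hw := hT m hm
      -- the reduced exponents
      set n : Fin (2 * g) → ℕ := fun i => if (i : ℕ) + 1 ≤ g then (i : ℕ) + 1 else 2 * g - ((i : ℕ) + 1)
        with hn
      have hng : ∀ i, n i ≤ g := by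
        intro i
        simp only [hn]
        split_ifs <;> omega
      set a : ℕ := ∑ i, m i * (((i : ℕ) + 1) - g) with ha
      set w' : ℕ := ∑ i, m i * n i with hw'
      have hwa : w' + 2 * a = d := by
        rw [← hw, hw', ha, wt, Finset.mul_sum, ← Finset.sum_add_distrib]
        refine Finset.sum_congr rfl fun i _ => ?_
        have : n i + 2 * ((i : ℕ) + 1 - g) = (i : ℕ) + 1 := by
          have hi := i.2
          simp only [hn]
          split_ifs <;> omega
        calc m i * n i + 2 * (m i * ((i : ℕ) + 1 - g)) = m i * (n i + 2 * ((i : ℕ) + 1 - g)) := by ring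
          _ = m i * ((i : ℕ) + 1) := by rw [this]
      set E' : MvPolynomial (Fin (2 * g)) ℤ := ∏ i, MvPolynomial.esymm (Fin (2 * g)) ℤ (n i) ^ m i
        with hE'
      set U' : MvPolynomial (Fin (2 * g)) ℤ :=
        ∏ i, ((-1) ^ (n i) * PowerSeries.coeff (n i) (U (2 * g))) ^ m i with hU'
      have hcmp : E' - U' ∈ mm (2 * g) ^ (w' + 1) := by
        refine (prod_cmp (mm (2 * g)) univ (fun i => MvPolynomial.esymm (Fin (2 * g)) ℤ (n i) ^ m i)
          (fun i => ((-1) ^ (n i) * PowerSeries.coeff (n i) (U (2 * g))) ^ m i)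
          (fun i => m i * n i) fun i _ => ?_).2.2
        have k1 : MvPolynomial.esymm (Fin (2 * g)) ℤ (n i) ∈ mm (2 * g) ^ (n i) := hom_mem (esymm_hom _)
        have hs : (-1 : MvPolynomial (Fin (2 * g)) ℤ) ^ (n i) * (-1) ^ (n i) = 1 := by
          rw [← mul_pow]; simp
        have k3 : MvPolynomial.esymm (Fin (2 * g)) ℤ (n i) -
            (-1) ^ (n i) * PowerSeries.coeff (n i) (U (2 * g)) ∈ mm (2 * g) ^ (n i + 1) := by
          have e1 : MvPolynomial.esymm (Fin (2 * g)) ℤ (n i) -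
            (-1) ^ (n i) * PowerSeries.coeff (n i) (U (2 * g)) =
              -((-1) ^ (n i) * (PowerSeries.coeff (n i) (U (2 * g)) -
                (-1) ^ (n i) * MvPolynomial.esymm (Fin (2 * g)) ℤ (n i))) := by
            rw [mul_sub, ← mul_assoc, hs, one_mul]
            ring
          rw [e1]
          exact Submodule.neg_mem _ (Ideal.mul_mem_left _ _ (U_leading (n i)))
        have k2 : (-1) ^ (n i) * PowerSeries.coeff (n i) (U (2 * g)) ∈ mm (2 * g) ^ (n i) := by
          have := Ideal.sub_mem _ k1 (Ideal.pow_le_pow_right (Nat.le_succ _) k3)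
          simpa using this
        exact pow_cmp (mm (2 * g)) k1 k2 k3 (m i)
      have hsymD : (E' - U').IsSymmetric := by
        intro σ
        rw [map_sub, hE', hU', map_prod, map_prod]
        congr 1
        · refine Finset.prod_congr rfl fun i _ => ?_
          rw [map_pow, MvPolynomial.esymm_isSymmetric _ _ _ σ]
        · refine Finset.prod_congr rfl fun i _ => ?_
          rw [map_pow, map_mul, map_pow, map_neg, map_one, U_symm _ σ]
      have hD := ih (w' + 1) _ hsymD hcmp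
      have hUg := (Good.prod_U hX h1 univ n hng m).appr (w' + 1 + δ)
      have hE := ((hD.add hUg).shift a).int_mul (c m)
      have hK : w' + 1 + δ + 2 * a = d + 1 + δ := by omega
      rw [hK] at hE
      refine hE.congr fun p k hp hk => ?_
      have hval : MvPolynomial.aeval (xx α p k) E' = MvPolynomial.aeval (xx α p k) (E' - U') +
          ∏ i, MvPolynomial.aeval (xx α p k)
            ((-1) ^ (n i) * PowerSeries.coeff (n i) (U (2 * g))) ^ (m i) := by
        have hU2 : ∏ i, MvPolynomial.aeval (xx α p k)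
            ((-1) ^ (n i) * PowerSeries.coeff (n i) (U (2 * g))) ^ (m i) =
              MvPolynomial.aeval (xx α p k) U' := by
          rw [hU', map_prod]
          exact Finset.prod_congr rfl fun i _ => (map_pow _ _ _).symm
        rw [hU2, ev_sub, sub_add_cancel]
      rw [← hval, ht]
      simp only []
      rw [aeval_mono, map_mul, map_intCast, map_prod, map_prod]
      congr 1
      rw [ha, ← Finset.prod_pow_eq_pow_sum, ← Finset.prod_mul_distrib]
      refine Finset.prod_congr rfl fun i _ => ?_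
      rw [map_pow, map_pow, mul_comm (m i), pow_mul, ← mul_pow]
      congr 1
      simp only [hn]
      split_ifs with hi
      · rw [Nat.sub_eq_zero_of_le hi, pow_zero, one_mul]
      · rw [fun_eq hX hp k (n := (i : ℕ) + 1) (by omega) (by have := i.2; omega)]
    have hC := hA.add (Appr.sum T h0 hB)
    have hK : d + 1 + δ = d + (δ + 1) := by omega
    rw [hK] at hC
    refine hC.congr fun p k _ _ => ?_
    rw [ev_sub, map_sum]
    ring

/-- `Ψ(x)` for symmetric `Ψ` from the symmetric powers -/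
theorem evx_of_sym (hX : AbelianCounts g P X α)
    (h : ∀ l : List ℕ, (∀ n ∈ l, n ≤ g) →
      Continues P (fun p k => (l.map fun n => (symPoints X n p k : ℂ)).prod))
    {Ψ : MvPolynomial (Fin (2 * g)) ℤ} (hΨ : Ψ.IsSymmetric) :
    Continues P (fun p k => MvPolynomial.aeval (xx α p k) Ψ) := by
  refine continues_of_approx fun B => ?_
  have h1 : Good P g X (fun _ _ => 1) := fun l hl => (h l hl).congr fun p k _ _ => by rw [one_mul]
  obtain ⟨F, hF, C, hC, hb⟩ := appr_all hX h1 (2 * B) 0 Ψ hΨ (by simp)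
  refine ⟨F, (hF [] (by simp)).congr fun p k _ _ => by simp, C, hC, ?_⟩
  intro p k hp hk
  have hp0 : (0 : ℝ) < (p : ℕ) := by exact_mod_cast p.2.pos
  refine (hb p k hp hk).trans (le_of_eq ?_)
  congr 1
  rw [zero_add, pow_mul, rho_sq, Real.rpow_neg hp0.le, Real.rpow_natCast, inv_pow, inv_pow]
  congr 1
  rw [← pow_mul, ← pow_mul, mul_comm]

/-- the symmetric powers from `Ψ(x)` for symmetric `Ψ` -/
theorem sym_of_evx (hX : AbelianCounts g P X α)
    (h : ∀ Ψ : MvPolynomial (Fin (2 * g)) ℤ, Ψ.IsSymmetric →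
      Continues P (fun p k => MvPolynomial.aeval (xx α p k) Ψ)) (l : List ℕ) :
    Continues P (fun p k => (l.map fun n => (symPoints X n p k : ℂ)).prod) := by
  have hsym : ∀ l : List ℕ, ((l.map fun n => PowerSeries.coeff n (H (2 * g))).prod).IsSymmetric := by
    intro l
    induction l with
    | nil => intro σ; simp
    | cons n l ih =>
      intro σ
      rw [List.map_cons, List.prod_cons, map_mul, ih σ, H_symm n σ]
  refine ((h _ (hsym l)).shift ((g * l.sum : ℕ) : ℤ)).congr fun p k hp hk => ?_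
  induction l with
  | nil => simp
  | cons n l ih =>
    rw [List.map_cons, List.prod_cons, List.map_cons, List.prod_cons, ← ih, map_mul,
      sym_count hX hp hk, List.sum_cons, zpow_natCast, zpow_natCast, mul_add, pow_add, pow_mul]
    ring

/-- the elementary symmetric polynomials of many copies of the variables -/
theorem powers_of_all (h : ∀ Φ : MvPolynomial (Fin (2 * g)) ℤ, Φ.IsSymmetric →
      Continues P (fun p k => MvPolynomial.aeval (fun i => α p i ^ k) Φ)) (m n : ℕ) :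
    Continues P (fun p k => ∑ s ∈ powersetCard n (univ : Finset (Fin m × Fin (2 * g))),
      ∏ x ∈ s, α p x.2 ^ k) := by
  have hsym : (MvPolynomial.rename (Prod.snd : Fin m × Fin (2 * g) → Fin (2 * g))
      (MvPolynomial.esymm (Fin m × Fin (2 * g)) ℤ n)).IsSymmetric := by
    intro σ
    rw [MvPolynomial.rename_rename]
    have e : (σ ∘ Prod.snd : Fin m × Fin (2 * g) → Fin (2 * g)) =
        Prod.snd ∘ (Equiv.prodCongr (Equiv.refl (Fin m)) σ) := by
      ext x; rfl
    rw [e, ← MvPolynomial.rename_rename,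
      MvPolynomial.esymm_isSymmetric _ _ n (Equiv.prodCongr (Equiv.refl (Fin m)) σ)]
  refine (h _ hsym).congr fun p k _ _ => ?_
  rw [MvPolynomial.aeval_rename, MvPolynomial.esymm, map_sum]
  refine Finset.sum_congr rfl fun s _ => ?_
  rw [map_prod]
  simp

/-- **Main theorem.** -/
theorem main (hX : AbelianCounts g P X α) : List.TFAE [
    ∀ l : List ℕ, (∀ n ∈ l, n ≤ g) →
      Continues P (fun p k => (l.map fun n => (symPoints X n p k : ℂ)).prod),
    ∀ l : List ℕ, Continues P (fun p k => (l.map fun n => (symPoints X n p k : ℂ)).prod),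
    ∀ l : List ℕ, Continues P (fun p k => (l.map fun n =>
      ∑ s ∈ powersetCard n (univ : Finset (Fin (2 * g))), ∏ i ∈ s, α p i ^ k).prod),
    ∀ Φ : MvPolynomial (Fin (2 * g)) ℤ, Φ.IsSymmetric →
      Continues P (fun p k => MvPolynomial.aeval (fun i => α p i ^ k) Φ)] := by
  tfae_have 1 → 4 := fun h Φ hΦ => all_ev (fun Ψ hΨ => evx_of_sym hX h hΨ) hΦ
  tfae_have 4 → 2 := fun h l => sym_of_evx hX (fun Ψ hΨ => all_evx h hΨ) l
  tfae_have 2 → 1 := fun h l _ => h l
  have e0 : ∀ (p : Nat.Primes) (k n : ℕ), MvPolynomial.aeval (fun i => α p i ^ k)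
      (MvPolynomial.esymm (Fin (2 * g)) ℤ n) =
        ∑ s ∈ powersetCard n (univ : Finset (Fin (2 * g))), ∏ i ∈ s, α p i ^ k :=
    fun p k n => aeval_esymm _ n
  simp only [← e0]
  tfae_have 3 → 4 := fun h Φ hΦ => all_of_tensors h hΦ
  tfae_have 4 → 3 := by
    intro h l
    have hsym : ((l.map fun n => MvPolynomial.esymm (Fin (2 * g)) ℤ n).prod).IsSymmetric := by
      intro σ
      induction l with
      | nil => simp
      | cons n l ih =>
        rw [List.map_cons, List.prod_cons, map_mul, ih, MvPolynomial.esymm_isSymmetric _ _ n σ]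
    refine (h _ hsym).congr fun p k _ _ => ?_
    rw [map_list_prod, List.map_map]
    rfl
  tfae_finish

end

end Pool.Agent.Helper28.SY
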