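import Mathlib

/-!
# Points of a scheme over finite fields and the Frobenius map on its geometric points
-/

set_option autoImplicit false

namespace Pool.Agent.Helper28.SY

open CategoryTheory AlgebraicGeometry

/-- The points of `X` in the field `K`. -/
abbrev Pts (X : Scheme.{0}) (K : Type) [Field K] : Type := Spec (CommRingCat.of K) ⟶ X

/-- the map of the points given by a homomorphism of fields -/
noncomputable def push {X : Scheme.{0}} {L K : Type} [Field L] [Field K] (f : L →+* K) (y : Pts X L) :
    Pts X K :=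
  Spec.map (CommRingCat.ofHom f) ≫ y

theorem equiv_push {X : Scheme.{0}} {L K : Type} [Field L] [Field K] (f : L →+* K) (y : Pts X L) :
    X.SpecToEquivOfField K (push f y) =
      ⟨(X.SpecToEquivOfField L y).1, (X.SpecToEquivOfField L y).2 ≫ CommRingCat.ofHom f⟩ := by
  rw [← Equiv.eq_symm_apply]
  show Spec.map (CommRingCat.ofHom f) ≫ y =
    Spec.map ((X.SpecToEquivOfField L y).2 ≫ CommRingCat.ofHom f) ≫
      X.fromSpecResidueField (X.SpecToEquivOfField L y).1
  rw [Spec.map_comp, Category.assoc]
  congr 1
  exact ((X.SpecToEquivOfField L).symm_apply_apply y).symm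

theorem push_injective {X : Scheme.{0}} {L K : Type} [Field L] [Field K] (f : L →+* K) :
    Function.Injective (push f : Pts X L → Pts X K) := by
  intro y y' h
  have h1 := congrArg (X.SpecToEquivOfField K) h
  rw [equiv_push, equiv_push] at h1
  apply (X.SpecToEquivOfField L).injective
  generalize X.SpecToEquivOfField L y = z at h1 ⊢
  generalize X.SpecToEquivOfField L y' = z' at h1 ⊢
  obtain ⟨t, g⟩ := z
  obtain ⟨t', g'⟩ := z'
  simp only [Sigma.mk.injEq] at h1
  obtain ⟨rfl, h2⟩ := h1
  have h3 := eq_of_heq h2
  congr 1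
  ext a
  have h4 := congrArg (fun u => (CommRingCat.Hom.hom u) a) h3
  exact f.injective h4

theorem exists_push {X : Scheme.{0}} {L K : Type} [Field L] [Field K] (f : L →+* K) (φ : K →+* K)
    (hf : ∀ a : K, φ a = a → a ∈ f.range) {x : Pts X K} (hx : push φ x = x) :
    ∃ y : Pts X L, push f y = x := by
  have h1 := equiv_push φ x
  rw [hx] at h1
  generalize hz : X.SpecToEquivOfField K x = z at h1
  obtain ⟨t, g⟩ := z
  simp only [Sigma.mk.injEq, heq_eq_eq, true_and] at h1
  have h2 : ∀ a, g.hom a ∈ f.range := by
    intro a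
    apply hf
    have h4 := congrArg (fun u => (CommRingCat.Hom.hom u) a) h1
    exact h4.symm
  let e : L ≃+* f.range := RingEquiv.ofBijective f.rangeRestrict
    ⟨(fun a b h => f.injective (congrArg Subtype.val h)), f.rangeRestrict_surjective⟩
  let g' : X.residueField t →+* L := e.symm.toRingHom.comp (g.hom.codRestrict f.range h2)
  have h5 : f.comp g' = g.hom := by
    ext a
    have h6 : e (g' a) = g.hom.codRestrict f.range h2 a := by
      simp [g']
    exact congrArg Subtype.val h6
  refine ⟨(X.SpecToEquivOfField L).symm ⟨t, CommRingCat.ofHom g'⟩, ?_⟩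
  apply (X.SpecToEquivOfField K).injective
  rw [equiv_push, hz, Equiv.apply_symm_apply]
  congr 1
  ext a
  exact congrArg (fun u : X.residueField t →+* K => u a) h5

theorem card_fixed {X : Scheme.{0}} {L K : Type} [Field L] [Field K] (f : L →+* K) (φ : K →+* K)
    (hf : ∀ a : K, φ a = a ↔ a ∈ f.range) :
    Nat.card (Pts X L) = {x : Pts X K | push φ x = x}.ncard := by
  rw [← Nat.card_coe_set_eq]
  refine Nat.card_eq_of_bijective (fun y => ⟨push f y, ?_⟩) ⟨?_, ?_⟩
  · show push φ (push f y) = push f y
    unfold push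
    rw [← Category.assoc, ← Spec.map_comp]
    congr 2
    ext a
    exact (hf (f a)).2 ⟨a, rfl⟩
  · intro y y' h
    exact push_injective f (congrArg Subtype.val h)
  · rintro ⟨x, hx⟩
    obtain ⟨y, hy⟩ := exists_push f φ (fun a => (hf a).1) hx
    exact ⟨y, Subtype.ext hy⟩

end Pool.Agent.Helper28.SY
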